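import Mathlib.Order.Lattice.Nat
import Mathlib.Topology.Defs.Basic
import Mathlib.Data.ENNReal.Basic
import Mathlib.Order.LiminfLimsup
import Mathlib.Order.CompletePartialOrder

/-!
Mean dimension of a topological dynamical system, through finite open covers.
-/

namespace Pool.Agent.MP_2d33ec_an

open Classical in
/-- The order of a finite family of sets: the largest number of members containing a common
point, minus one. -/
noncomputable def ord {X : Type} (α : Finset (Set X)) : ℕ :=
  (⨆ x : X, (α.filter fun U => x ∈ U).card) - 1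

/-- A finite open cover. -/
def IsFinOpenCover {X : Type} [TopologicalSpace X] (α : Finset (Set X)) : Prop :=
  (∀ U ∈ α, IsOpen U) ∧ ∀ x : X, ∃ U ∈ α, x ∈ U

/-- `D(α)`: the least order of a finite open cover refining `α`. -/
noncomputable def coverD {X : Type} [TopologicalSpace X] (α : Finset (Set X)) : ℕ :=
  sInf {n : ℕ | ∃ β : Finset (Set X), IsFinOpenCover β ∧ (∀ V ∈ β, ∃ U ∈ α, V ⊆ U) ∧ ord β = n}

open Classical in
/-- The join of `α, T⁻¹ α, ..., T^{-(n-1)} α`. -/
noncomputable def joinIter {X : Type} (T : X → X) (α : Finset (Set X)) (n : ℕ) :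
    Finset (Set X) :=
  (Fintype.piFinset fun _ : Fin n => α).image fun c => ⋂ i : Fin n, T^[i] ⁻¹' c i

/-- Mean dimension. -/
noncomputable def mdim {X : Type} [TopologicalSpace X] (T : X → X) : ENNReal :=
  ⨆ (α : Finset (Set X)) (_ : IsFinOpenCover α),
    Filter.limsup (fun n : ℕ => (coverD (joinIter T α n) : ENNReal) / n) Filter.atTop

end Pool.Agent.MP_2d33ec_an
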