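import Mathlib.CategoryTheory.Category.Basic
import Mathlib.Algebra.Field.ZMod
import Mathlib.Data.Int.Star
import Mathlib.Algebra.Order.Archimedean.Real.Hom
import Mathlib.Algebra.Order.Star.Real
import Mathlib.Combinatorics.SimpleGraph.Basic
import Mathlib.Analysis.SpecialFunctions.Gaussian.GaussianIntegral
import Mathlib.MeasureTheory.Integral.Pi
import Mathlib.Analysis.InnerProductSpace.Trace
import Mathlib.RingTheory.PiTensorProduct
import Mathlib.Tactic.Algebra.Basic

-- ======== part 0: formerly Pool.Agent.MP_2d33ec_an.BUDisc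
section MrgPart0

/-!
A discrete Borsuk-Ulam lemma for the cyclic group of prime order, by a signed count of alcoves
of the affine Coxeter complex of type A.
-/

namespace Pool.Agent.MP_2d33ec_an

open Finset

section Det

variable {n : Type*} [Fintype n] [DecidableEq n]

/-- The sign of a self-map of a finite set, zero if it is not a bijection. -/
def sdet (h : n → n) : ℤ := (Matrix.of fun k j => if h k = j then (1 : ℤ) else 0).det

theorem sdet_stokes (h : n → n) (j₀ : n) :
    sdet h = ∑ k, sdet (Function.update h k j₀) := by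
  set M : Matrix n n ℤ := Matrix.of fun k j => if h k = j then (1 : ℤ) else 0 with hM
  have h1 : ∀ k, sdet (Function.update h k j₀) = M.adjugate j₀ k := by
    intro k
    rw [Matrix.adjugate_apply, sdet]
    congr 1
    ext i j
    by_cases hi : i = k
    · subst hi
      simp [Pi.single_apply, eq_comm]
    · simp [Matrix.updateRow_ne hi, Function.update_of_ne hi, hM]
  have h2 : M.mulVec (fun _ => 1) = fun _ => 1 := by
    ext i
    simp [Matrix.mulVec, dotProduct, hM]
  have h3 : (M.adjugate.mulVec (fun _ => 1)) j₀ = M.det := by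
    conv_lhs => rw [← h2]
    rw [Matrix.mulVec_mulVec, Matrix.adjugate_mul]
    simp [Matrix.mulVec, dotProduct, Matrix.one_apply]
  simp only [h1]
  rw [sdet, ← hM, ← h3]
  simp [Matrix.mulVec, dotProduct]

theorem sdet_perm_comp (σ : Equiv.Perm n) (h : n → n) :
    sdet (σ ∘ h) = (Equiv.Perm.sign σ : ℤ) * sdet h := by
  have := Matrix.det_permute' σ⁻¹ (Matrix.of fun k j => if h k = j then (1 : ℤ) else 0)
  rw [Equiv.Perm.sign_inv] at this
  rw [sdet, sdet]
  refine Eq.trans ?_ this
  congr 1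
  ext i j
  simp only [Matrix.of_apply, Function.comp, Matrix.submatrix_apply, id]
  congr 1
  rw [Equiv.Perm.inv_def, Equiv.eq_symm_apply]

theorem sdet_id : sdet (id : n → n) = 1 := by
  have : (Matrix.of fun k j : n => if id k = j then (1 : ℤ) else 0) = 1 := by
    ext i j
    simp [Matrix.one_apply]
  rw [sdet, this, Matrix.det_one]

theorem injective_of_sdet_ne_zero {h : n → n} (hh : sdet h ≠ 0) : Function.Injective h := by
  intro i j hij
  by_contra hne
  apply hh
  refine Matrix.det_zero_of_row_eq hne ?_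
  ext k
  simp [hij]

end Det

variable {p : ℕ}

/-- Cyclic shift of coordinates. -/
def sh {α : Type*} (g : ZMod p) (v : ZMod p → α) : ZMod p → α := fun a => v (a + g)

theorem sh_sh {α : Type*} (g h : ZMod p) (v : ZMod p → α) : sh g (sh h v) = sh (g + h) v := by
  ext a; simp [sh, add_assoc]

@[simp] theorem sh_zero {α : Type*} (v : ZMod p → α) : sh 0 v = v := by
  ext a; simp [sh]

theorem const_of_sh_eq [Fact p.Prime] {α : Type*} {g : ZMod p} (hg : g ≠ 0) {v : ZMod p → α}
    (h : sh g v = v) (a : ZMod p) : v a = v 0 := by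
  have h1 : ∀ m : ℕ, v (m * g) = v 0 := by
    intro m
    induction m with
    | zero => simp
    | succ m ih =>
      have := congrFun h (m * g)
      simp only [sh] at this
      rw [← ih, ← this]
      congr 1
      push_cast
      ring
  have := h1 (a * g⁻¹).val
  rwa [ZMod.natCast_zmod_val, mul_assoc, inv_mul_cancel₀ hg, mul_one] at this

theorem exists_equivariant_label [Fact p.Prime] {α : Type*} (K : Set (ZMod p → α))
    (hK : ∀ v : ZMod p → α, (∃ a, v a ≠ v 0) → ∃ a, sh a v ∈ K) :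
    ∃ lam : (ZMod p → α) → ZMod p, ∀ v, (∃ a, v a ≠ v 0) →
      sh (lam v) v ∈ K ∧ ∀ g, lam (sh g v) + g = lam v := by
  classical
  let P : (ZMod p → α) → (ZMod p → α) → Prop := fun v w => w ∈ K ∧ ∃ a, w = sh a v
  have hP : ∀ g v, P (sh g v) = P v := by
    intro g v
    ext w
    simp only [P]
    constructor
    · rintro ⟨h1, a, rfl⟩
      exact ⟨h1, a + g, sh_sh _ _ _⟩
    · rintro ⟨h1, a, rfl⟩
      exact ⟨h1, a - g, by rw [sh_sh, sub_add_cancel]⟩
  have key : ∀ v : ZMod p → α, ∃ a, (∃ b, v b ≠ v 0) →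
      (sh a v ∈ K ∧ ∀ h : ∃ w, P v w, Classical.choose h = sh a v) := by
    intro v
    by_cases hv : ∃ b, v b ≠ v 0
    · obtain ⟨a, ha⟩ := hK v hv
      have h : ∃ w, P v w := ⟨_, ha, a, rfl⟩
      obtain ⟨h1, b, hb⟩ := Classical.choose_spec h
      exact ⟨b, fun _ => ⟨hb ▸ h1, fun _ => hb⟩⟩
    · exact ⟨0, fun h => absurd h hv⟩
  choose lam hlam using key
  refine ⟨lam, fun v hv => ⟨(hlam v hv).1, fun g => ?_⟩⟩
  have hv' : ∃ b, sh g v b ≠ sh g v 0 := by
    by_contra hcon
    push Not at hcon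
    obtain ⟨b, hb⟩ := hv
    apply hb
    have h1 := hcon (b - g)
    have h2 := hcon (0 - g)
    simp only [sh, sub_add_cancel] at h1 h2
    rw [h1, h2]
  have h : ∃ w, P v w := ⟨_, (hlam v hv).1, _, rfl⟩
  have h' : ∃ w, P (sh g v) w := by rw [hP]; exact h
  have e1 := (hlam v hv).2 h
  have e2 := (hlam _ hv').2 h'
  have e3 : Classical.choose h' = Classical.choose h := by
    congr 1
    exact hP g v
  rw [e3, e1, sh_sh] at e2
  by_contra hne
  have hne' : lam (sh g v) + g - lam v ≠ 0 := sub_ne_zero.2 hne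
  have e4 : sh (lam (sh g v) + g - lam v) v = v := by
    have := congrArg (sh (-lam v)) e2
    rw [sh_sh, sh_sh, neg_add_cancel, sh_zero] at this
    rw [sub_eq_neg_add]
    exact this.symm
  obtain ⟨b, hb⟩ := hv
  exact hb (const_of_sh_eq hne' e4 b)

/-- The `k`-th vertex of the alcove with base point `v` and ranking `ρ`. -/
def vert (v : ZMod p → ℤ) (ρ : ZMod p ≃ Fin p) (k : Fin p) : ZMod p → ℤ :=
  fun a => v a + if ρ a < k then 1 else 0

/-- Cyclic predecessor. -/
def prd (k : Fin p) : Fin p :=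
  ⟨if k.val = 0 then p - 1 else k.val - 1, by have := k.2; split_ifs <;> omega⟩

/-- The reflection of an alcove in the wall opposite to its `k`-th vertex. -/
def rfl' (k : Fin p) (A : (ZMod p → ℤ) × (ZMod p ≃ Fin p)) : (ZMod p → ℤ) × (ZMod p ≃ Fin p) :=
  (fun a => A.1 a + if k.val = 0 then
      (if A.2 a = k then 1 else 0) - (if A.2 a = prd k then 1 else 0) else 0,
    A.2.trans (Equiv.swap (prd k) k))

theorem prd_ne (hp : 2 ≤ p) (k : Fin p) : prd k ≠ k := by
  intro h
  have := congrArg Fin.val h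
  simp only [prd] at this
  split_ifs at this <;> omega

theorem vert_rfl' (hp : 2 ≤ p) (k j : Fin p) (hj : j ≠ k) (A : (ZMod p → ℤ) × (ZMod p ≃ Fin p)) :
    vert (rfl' k A).1 (rfl' k A).2 j = vert A.1 A.2 j := by
  ext a
  have hj' : j.val ≠ k.val := fun h => hj (Fin.ext h)
  have hjl := j.2
  have hkl := k.2
  have hprd : (prd k).val = if k.val = 0 then p - 1 else k.val - 1 := rfl
  simp only [vert, rfl', Equiv.trans_apply, Equiv.swap_apply_def, Fin.lt_def, Fin.ext_iff]
  generalize (A.2 a) = x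
  have hx := x.2
  split_ifs at hprd ⊢ <;> simp_all <;> omega

theorem rfl'_rfl' (hp : 2 ≤ p) (k : Fin p) (A : (ZMod p → ℤ) × (ZMod p ≃ Fin p)) :
    rfl' k (rfl' k A) = A := by
  have hne := prd_ne hp k
  refine Prod.ext ?_ ?_
  · ext a
    have key : ∀ x : Fin p, ((if x = k then (1 : ℤ) else 0) - if x = prd k then 1 else 0) +
        ((if Equiv.swap (prd k) k x = k then 1 else 0) -
          if Equiv.swap (prd k) k x = prd k then 1 else 0) = 0 := by
      intro x
      by_cases h1 : x = k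
      · rw [h1, Equiv.swap_apply_right]
        simp [hne, hne.symm]
      · by_cases h2 : x = prd k
        · rw [h2, Equiv.swap_apply_left]
          simp [hne, hne.symm]
        · rw [Equiv.swap_apply_of_ne_of_ne h2 h1]
          simp [h1, h2]
    show A.1 a + (if k.val = 0 then
        (if A.2 a = k then (1 : ℤ) else 0) - (if A.2 a = prd k then 1 else 0) else 0) +
      (if k.val = 0 then (if Equiv.swap (prd k) k (A.2 a) = k then 1 else 0) -
        (if Equiv.swap (prd k) k (A.2 a) = prd k then 1 else 0) else 0) = A.1 a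
    by_cases h0 : k.val = 0
    · rw [if_pos h0, if_pos h0, add_assoc, key, add_zero]
    · rw [if_neg h0, if_neg h0]; simp
  · ext a
    simp [rfl']

theorem sum_rfl' [NeZero p] (k : Fin p) (A : (ZMod p → ℤ) × (ZMod p ≃ Fin p)) :
    ∑ a, (rfl' k A).1 a = ∑ a, A.1 a := by
  have h1 : ∀ j : Fin p, ∑ a, (if A.2 a = j then (1 : ℤ) else 0) = 1 := by
    intro j
    rw [Fintype.sum_eq_single (A.2.symm j)]
    · simp
    · intro a ha
      rw [if_neg]
      intro h
      exact ha (by rw [← h]; simp)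
  simp only [rfl', sum_add_distrib]
  split_ifs
  · rw [sum_sub_distrib, h1, h1]; simp
  · simp

theorem sum_vert [NeZero p] (v : ZMod p → ℤ) (ρ : ZMod p ≃ Fin p) (k : Fin p) :
    ∑ a, vert v ρ k a = ∑ a, v a + k.val := by
  simp only [vert, sum_add_distrib]
  congr 1
  rw [Equiv.sum_comp ρ (fun j => if j < k then (1 : ℤ) else 0)]
  rw [← sum_filter]
  simp only [sum_const, nsmul_eq_mul, mul_one]
  congr 1
  rw [show univ.filter (fun j : Fin p => j < k) = Iio k by ext; simp, Fin.card_Iio]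

theorem vert_nonconst [NeZero p] {v : ZMod p → ℤ} (hv : ∑ a, v a = 0) (ρ : ZMod p ≃ Fin p)
    (k : Fin p) (h : v ≠ 0 ∨ k.val ≠ 0) : ∃ a, vert v ρ k a ≠ vert v ρ k 0 := by
  by_contra hcon
  push Not at hcon
  have h1 := sum_vert v ρ k
  rw [hv, zero_add, sum_congr rfl fun a _ => hcon a] at h1
  simp only [sum_const, card_univ, ZMod.card, nsmul_eq_mul] at h1
  have hk := k.2
  have h2 : vert v ρ k 0 = 0 := by
    by_contra hne
    rcases lt_or_gt_of_ne hne with h3 | h3
    · have : (p : ℤ) * vert v ρ k 0 ≤ p * (-1) := mul_le_mul_of_nonneg_left (by omega) (by omega)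
      omega
    · have : (p : ℤ) * 1 ≤ p * vert v ρ k 0 := mul_le_mul_of_nonneg_left (by omega) (by omega)
      omega
  rw [h2, mul_zero] at h1
  have hk0 : k.val = 0 := by omega
  rcases h with h | h
  · apply h
    ext a
    have := hcon a
    rw [h2] at this
    simp only [vert, Fin.lt_def, hk0, Nat.not_lt_zero, if_false, add_zero] at this
    exact this
  · exact h hk0

/-- The signed count attached to an alcove. -/
def term (lam : (ZMod p → ℤ) → ZMod p) (A : (ZMod p → ℤ) × (ZMod p ≃ Fin p)) : ℤ :=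
  sdet fun j => A.2 (lam (vert A.1 A.2 j))

/-- The signed count attached to a wall of an alcove. -/
def wall (lam : (ZMod p → ℤ) → ZMod p) (k : Fin p) (A : (ZMod p → ℤ) × (ZMod p ≃ Fin p)) : ℤ :=
  sdet (Function.update (fun j => A.2 (lam (vert A.1 A.2 j))) k (A.2 0))

theorem wall_rfl' (hp : 2 ≤ p) (lam : (ZMod p → ℤ) → ZMod p) (k : Fin p)
    (A : (ZMod p → ℤ) × (ZMod p ≃ Fin p)) : wall lam k (rfl' k A) = - wall lam k A := by
  have h1 : Function.update (fun j => (rfl' k A).2 (lam (vert (rfl' k A).1 (rfl' k A).2 j))) k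
      ((rfl' k A).2 0) = (Equiv.swap (prd k) k) ∘
        Function.update (fun j => A.2 (lam (vert A.1 A.2 j))) k (A.2 0) := by
    ext j
    by_cases hj : j = k
    · subst hj
      simp [rfl']
    · rw [Function.update_of_ne hj, vert_rfl' hp k j hj]
      simp [Function.update_of_ne hj, rfl']
  rw [wall, h1, sdet_perm_comp, Equiv.Perm.sign_swap (prd_ne hp k), wall]
  simp

theorem star_unique [NeZero p] (mu : Finset (ZMod p) → ZMod p) (ρ ρ' : ZMod p ≃ Fin p)
    (h : ∀ k, ρ (mu (univ.filter fun a => ρ a ≤ k)) = k)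
    (h' : ∀ k, ρ' (mu (univ.filter fun a => ρ' a ≤ k)) = k) : ρ = ρ' := by
  have key : ∀ i : ℕ, ∀ k : Fin p, k.val + i + 1 = p →
      (univ.filter fun a => ρ a ≤ k) = univ.filter fun a => ρ' a ≤ k := by
    intro i
    induction i with
    | zero =>
      intro k hk
      ext a
      have h1 := (ρ a).2
      have h2 := (ρ' a).2
      simp only [mem_filter, mem_univ, true_and, Fin.le_def]
      omega
    | succ i ih =>
      intro k hk
      have hk1 : k.val + 1 < p := by omega
      have e := ih ⟨k.val + 1, hk1⟩ (by simp only; omega)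
      have e1 := h ⟨k.val + 1, hk1⟩
      have e2 := h' ⟨k.val + 1, hk1⟩
      rw [← e] at e2
      ext a
      have e3 : a ∈ (univ.filter fun a => ρ a ≤ ⟨k.val + 1, hk1⟩) ↔
          a ∈ (univ.filter fun a => ρ' a ≤ ⟨k.val + 1, hk1⟩) := by rw [e]
      simp only [mem_filter, mem_univ, true_and, Fin.le_def] at e3 ⊢
      have e4 : (ρ a).val = k.val + 1 ↔ (ρ' a).val = k.val + 1 := by
        constructor
        · intro h4
          have : ρ a = ρ _ := (Fin.ext h4).trans e1.symm
          rw [ρ.injective this, e2]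
        · intro h4
          have : ρ' a = ρ' _ := (Fin.ext h4).trans e2.symm
          rw [ρ'.injective this, e1]
      omega
  have : ρ.symm = ρ'.symm := by
    ext k
    have hk := k.2
    have e := key (p - 1 - k.val) k (by omega)
    have e1 := h k
    have e2 := h' k
    rw [← e] at e2
    rw [ρ.symm_apply_eq.2 e1.symm, ρ'.symm_apply_eq.2 e2.symm]
  exact Equiv.symm_bijective.injective this

theorem star_exists [NeZero p] (mu : Finset (ZMod p) → ZMod p)
    (hmu : ∀ T : Finset (ZMod p), T.Nonempty → mu T ∈ T) :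
    ∃ ρ : ZMod p ≃ Fin p, ∀ k, ρ (mu (univ.filter fun a => ρ a ≤ k)) = k := by
  let T : ℕ → Finset (ZMod p) := fun i => Nat.rec univ (fun _ S => S.erase (mu S)) i
  have hT : ∀ i, T (i + 1) = (T i).erase (mu (T i)) := fun i => rfl
  have hcard : ∀ i, i ≤ p → (T i).card = p - i := by
    intro i
    induction i with
    | zero => intro _; simp [T, ZMod.card]
    | succ i ih =>
      intro hi
      have h1 := ih (by omega)
      have h2 : (T i).Nonempty := card_pos.1 (by omega)
      rw [hT, card_erase_of_mem (hmu _ h2)]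
      omega
  have hmem : ∀ i, i < p → mu (T i) ∈ T i := fun i hi =>
    hmu _ (card_pos.1 (by rw [hcard i hi.le]; omega))
  have hanti : ∀ i j, i ≤ j → T j ⊆ T i := by
    intro i j hij
    induction hij with
    | refl => exact Subset.rfl
    | step _ ih => rw [hT]; exact (erase_subset _ _).trans ih
  have hnot : ∀ i j, i < j → mu (T i) ∉ T j := by
    intro i j hij hm
    have := hanti (i + 1) j hij hm
    rw [hT] at this
    exact notMem_erase _ _ this
  let π : Fin p → ZMod p := fun k => mu (T (p - 1 - k.val))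
  have hinj : Function.Injective π := by
    intro j k hjk
    have hj := j.2
    have hk := k.2
    by_contra hne
    have hne' : j.val ≠ k.val := fun h => hne (Fin.ext h)
    rcases lt_or_gt_of_ne hne' with h | h
    · apply hnot (p - 1 - k.val) (p - 1 - j.val) (by omega)
      have := hmem (p - 1 - j.val) (by omega)
      simp only [π] at hjk
      rwa [hjk] at this
    · apply hnot (p - 1 - j.val) (p - 1 - k.val) (by omega)
      have := hmem (p - 1 - k.val) (by omega)
      simp only [π] at hjk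
      rwa [← hjk] at this
  have hbij : Function.Bijective π :=
    (Fintype.bijective_iff_injective_and_card π).2 ⟨hinj, by simp [ZMod.card]⟩
  refine ⟨(Equiv.ofBijective π hbij).symm, fun k => ?_⟩
  have hk := k.2
  have : (univ.filter fun a => (Equiv.ofBijective π hbij).symm a ≤ k) = T (p - 1 - k.val) := by
    ext a
    obtain ⟨j, rfl⟩ := hbij.2 a
    have hj := j.2
    have e : (Equiv.ofBijective π hbij).symm (π j) = j :=
      (Equiv.ofBijective π hbij).symm_apply_apply j
    simp only [mem_filter, mem_univ, true_and, e, Fin.le_def]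
    constructor
    · intro h
      exact hanti _ _ (by omega) (hmem (p - 1 - j.val) (by omega))
    · intro h
      by_contra hlt
      exact hnot (p - 1 - j.val) (p - 1 - k.val) (by omega) h
  rw [this]
  exact (Equiv.ofBijective π hbij).symm_apply_apply k

theorem eq_prd_of_inj (h : Fin p → Fin p) (hinj : Function.Injective h)
    (hlt : ∀ k : Fin p, k.val ≠ 0 → (h k).val < k.val) (k : Fin p) : h k = prd k := by
  have key : ∀ m : ℕ, ∀ k : Fin p, k.val = m + 1 → (h k).val = m := by
    intro m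
    induction m using Nat.strong_induction_on with
    | _ m ih =>
      intro k hk
      have h1 := hlt k (by omega)
      by_contra hne
      have h2 : (h k).val < m := by omega
      have hkl := k.2
      have h3 := ih (h k).val h2 ⟨(h k).val + 1, by omega⟩ rfl
      have h4 := congrArg Fin.val (hinj (Fin.ext h3))
      simp only at h4
      omega
  by_cases hk : k.val = 0
  · apply Fin.ext
    simp only [prd, hk, if_true]
    by_contra hne
    have h1 := (h k).2
    have h3 := key (h k).val ⟨(h k).val + 1, by omega⟩ rfl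
    have h4 := congrArg Fin.val (hinj (Fin.ext h3))
    simp only at h4
    omega
  · apply Fin.ext
    simp only [prd, hk, if_false]
    exact key (k.val - 1) k (by omega)

theorem prd_injective : Function.Injective (prd : Fin p → Fin p) := by
  intro j k h
  have := congrArg Fin.val h
  have hj := j.2
  have hk := k.2
  simp only [prd] at this
  apply Fin.ext
  split_ifs at this <;> omega

theorem star_sum [Fact p.Prime] (lam : (ZMod p → ℤ) → ZMod p)
    (h01 : ∀ v : ZMod p → ℤ, (∀ a, v a = 0 ∨ v a = 1) → (∃ a, v a ≠ v 0) → v (lam v) = 1) :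
    ∑ ρ : ZMod p ≃ Fin p, term lam (0, ρ) = 1 ∨ ∑ ρ : ZMod p ≃ Fin p, term lam (0, ρ) = -1 := by
  classical
  let mu : Finset (ZMod p) → ZMod p := fun T =>
    if T = univ then lam 0 else lam fun a => if a ∈ T then 1 else 0
  have hmu : ∀ T : Finset (ZMod p), T.Nonempty → mu T ∈ T := by
    intro T hT
    by_cases hu : T = univ
    · rw [hu]; exact mem_univ _
    · simp only [mu, if_neg hu]
      have := h01 (fun a => if a ∈ T then 1 else 0) (fun a => by by_cases a ∈ T <;> simp [*]) (by
        obtain ⟨a, ha⟩ := hT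
        obtain ⟨b, hb⟩ : ∃ b, b ∉ T := by
          by_contra hcon
          push Not at hcon
          exact hu (eq_univ_of_forall hcon)
        by_cases h0 : (0 : ZMod p) ∈ T
        · exact ⟨b, by simp [hb, h0]⟩
        · exact ⟨a, by simp [ha, h0]⟩)
      by_contra hcon
      simp [hcon] at this
  have hlab : ∀ (ρ : ZMod p ≃ Fin p) (k : Fin p),
      lam (vert 0 ρ k) = mu (univ.filter fun a => ρ a ≤ prd k) := by
    intro ρ k
    have hk := k.2
    by_cases hk0 : k.val = 0
    · have h1 : (univ.filter fun a => ρ a ≤ prd k) = univ := by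
        apply eq_univ_of_forall
        intro a
        have := (ρ a).2
        simp only [mem_filter, mem_univ, true_and, Fin.le_def, prd, hk0, if_true]
        omega
      simp only [mu, h1, if_true]
      congr 1
      ext a
      simp [vert, Fin.lt_def, hk0]
    · have h1 : (univ.filter fun a => ρ a ≤ prd k) ≠ univ := by
        intro h
        have : ρ.symm k ∈ (univ.filter fun a => ρ a ≤ prd k) := by rw [h]; exact mem_univ _
        simp only [mem_filter, mem_univ, true_and, Fin.le_def, prd, hk0, if_false,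
          Equiv.apply_symm_apply] at this
        omega
      simp only [mu, if_neg h1]
      congr 1
      ext a
      simp only [vert, Pi.zero_apply, zero_add, mem_filter, mem_univ, true_and, Fin.le_def,
        Fin.lt_def, prd, hk0, if_false]
      congr 1
      apply propext
      omega
  obtain ⟨ρ₀, hρ₀⟩ := star_exists mu hmu
  have hsurj : Function.Surjective (prd : Fin p → Fin p) :=
    Finite.injective_iff_surjective.1 prd_injective
  rw [Fintype.sum_eq_single ρ₀]
  · have h1 : (fun j => ρ₀ (lam (vert 0 ρ₀ j))) =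
        (Equiv.ofBijective prd ⟨prd_injective, hsurj⟩ : Equiv.Perm (Fin p)) ∘ id := by
      ext j
      rw [hlab, hρ₀]
      rfl
    simp only [term]
    rw [h1, sdet_perm_comp, sdet_id, mul_one]
    rcases Int.units_eq_one_or
      (Equiv.Perm.sign (Equiv.ofBijective prd ⟨prd_injective, hsurj⟩ : Equiv.Perm (Fin p)))
      with h | h <;> simp [h]
  · intro ρ hρ
    by_contra hne
    apply hρ
    have hinj := injective_of_sdet_ne_zero hne
    have h2 := eq_prd_of_inj _ hinj (by
      intro k hk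
      have hm := hmu (univ.filter fun a => ρ a ≤ prd k) ⟨ρ.symm (prd k), by simp⟩
      rw [← hlab] at hm
      simp only [mem_filter, mem_univ, true_and, Fin.le_def, prd, hk, if_false] at hm
      simp only
      omega)
    refine star_unique mu ρ ρ₀ (fun k => ?_) hρ₀
    obtain ⟨j, rfl⟩ := hsurj k
    rw [← hlab]
    exact h2 j

theorem disc_core [Fact p.Prime] (lam : (ZMod p → ℤ) → ZMod p)
    (heq : ∀ v : ZMod p → ℤ, (∃ a, v a ≠ v 0) → ∀ g, lam (sh g v) + g = lam v)
    (h01 : ∀ v : ZMod p → ℤ, (∀ a, v a = 0 ∨ v a = 1) → (∃ a, v a ≠ v 0) → v (lam v) = 1)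
    (N : ℕ) : ∃ (v : ZMod p → ℤ) (ρ : ZMod p ≃ Fin p) (k : Fin p),
      ∑ a, v a = 0 ∧ (∃ a, (N : ℤ) < |v a|) ∧ wall lam k (v, ρ) ≠ 0 := by
  classical
  have hp : 2 ≤ p := (Fact.out : p.Prime).two_le
  by_contra hcon
  push Not at hcon
  let box : Finset (ZMod p → ℤ) :=
    (Fintype.piFinset fun _ => Icc (-(N : ℤ)) N).filter fun v => ∑ a, v a = 0
  have hbox : ∀ v, v ∈ box ↔ (∀ a, |v a| ≤ N) ∧ ∑ a, v a = 0 := by
    intro v
    simp [box, abs_le]
  let AA : Finset ((ZMod p → ℤ) × (ZMod p ≃ Fin p)) := box ×ˢ univ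
  have hAA : ∀ A, A ∈ AA ↔ (∀ a, |A.1 a| ≤ N) ∧ ∑ a, A.1 a = 0 := by
    intro A
    simp [AA, hbox]
  have h1 : ∑ A ∈ AA, term lam A = 0 := by
    have : ∀ A, term lam A = ∑ k, wall lam k A := fun A => sdet_stokes _ _
    simp only [this]
    rw [sum_comm]
    refine sum_eq_zero fun k _ => ?_
    rw [← sum_filter_ne_zero]
    refine sum_involution (fun A _ => rfl' k A) ?_ ?_ ?_ ?_
    · intro A _
      rw [wall_rfl' hp, add_neg_cancel]
    · intro A _ hne h
      have := wall_rfl' hp lam k A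
      rw [h] at this
      omega
    · intro A hA
      rw [mem_filter, hAA] at hA ⊢
      have hs : ∑ a, (rfl' k A).1 a = 0 := by rw [sum_rfl']; exact hA.1.2
      have hw : wall lam k (rfl' k A) ≠ 0 := by
        rw [wall_rfl' hp]; exact neg_ne_zero.2 hA.2
      refine ⟨⟨?_, hs⟩, hw⟩
      by_contra hcon2
      push Not at hcon2
      exact hw (hcon _ _ k hs hcon2)
    · intro A _
      exact rfl'_rfl' hp k A
  let BB := AA.filter fun A => A.1 ≠ 0
  have h2 : (p : ℤ) ∣ ∑ A ∈ BB, term lam A := by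
    have z : Fin p := ⟨0, by omega⟩
    rw [← sum_fiberwise_of_maps_to (s := BB) (t := univ) (g := fun A => A.2.symm z)
      (fun _ _ => mem_univ _)]
    have hfib : ∀ g : ZMod p, ∑ A ∈ BB with A.2.symm z = g, term lam A =
        ∑ A ∈ BB with A.2.symm z = 0, term lam A := by
      intro g
      have hmem : ∀ (g : ZMod p) (A : (ZMod p → ℤ) × (ZMod p ≃ Fin p)), A ∈ BB →
          (sh g A.1, (Equiv.addRight g).trans A.2) ∈ BB := by
        intro g A hA
        simp only [BB, mem_filter, hAA] at hA ⊢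
        refine ⟨⟨fun a => hA.1.1 _, ?_⟩, ?_⟩
        · rw [← hA.1.2]
          exact Equiv.sum_comp (Equiv.addRight g) A.1
        · intro h
          apply hA.2
          have := congrArg (sh (-g)) h
          rw [sh_sh, neg_add_cancel, sh_zero] at this
          rw [this]
          rfl
      refine sum_nbij' (fun A => (sh g A.1, (Equiv.addRight g).trans A.2))
        (fun A => (sh (-g) A.1, (Equiv.addRight (-g)).trans A.2)) ?_ ?_ ?_ ?_ ?_
      · intro A hA
        rw [mem_filter] at hA ⊢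
        refine ⟨hmem g A hA.1, ?_⟩
        simp [hA.2]
      · intro A hA
        rw [mem_filter] at hA ⊢
        refine ⟨hmem _ A hA.1, ?_⟩
        simp [hA.2]
      · intro A _
        refine Prod.ext ?_ ?_
        · simp [sh_sh]
        · ext a; simp
      · intro A _
        refine Prod.ext ?_ ?_
        · simp [sh_sh]
        · ext a; simp
      · intro A hA
        simp only [BB, mem_filter, hAA] at hA
        simp only [term]
        congr 1
        ext j
        have e1 : vert (sh g A.1) ((Equiv.addRight g).trans A.2) j = sh g (vert A.1 A.2 j) := by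
          ext a; simp [vert, sh]
        rw [e1, Equiv.trans_apply, Equiv.coe_addRight]
        simp only
        rw [heq _ (vert_nonconst hA.1.1.2 A.2 j (Or.inl hA.1.2)) g]
    simp only [hfib]
    simp [ZMod.card]
  have h3 : ∑ A ∈ AA with ¬ A.1 ≠ 0, term lam A = ∑ ρ : ZMod p ≃ Fin p, term lam (0, ρ) := by
    symm
    refine sum_nbij' (fun ρ => (0, ρ)) (fun A => A.2) ?_ ?_ ?_ ?_ ?_
    · intro ρ _
      simp [hAA]
    · intro A _
      exact mem_univ _
    · intro ρ _
      rfl
    · intro A hA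
      simp only [mem_filter, not_not] at hA
      exact Prod.ext hA.2.symm rfl
    · intro ρ _
      rfl
  rw [← sum_filter_add_sum_filter_not AA (fun A => A.1 ≠ 0), h3] at h1
  have h4 : (p : ℤ) ∣ ∑ ρ : ZMod p ≃ Fin p, term lam (0, ρ) := by
    have : ∑ ρ : ZMod p ≃ Fin p, term lam (0, ρ) = - ∑ A ∈ BB, term lam A := by linarith
    rw [this]
    exact h2.neg_right
  have h5 : (p : ℤ) ∣ 1 := by
    rcases star_sum lam h01 with h | h
    · rwa [h] at h4
    · rw [h] at h4; exact (dvd_neg).1 h4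
  have := Int.le_of_dvd one_pos h5
  omega

/-- Discrete Borsuk-Ulam lemma. -/
theorem disc_BU [Fact p.Prime] (K : Set (ZMod p → ℤ))
    (hK : ∀ v : ZMod p → ℤ, (∃ a, v a ≠ v 0) → ∃ a, sh a v ∈ K) (N : ℕ) :
    ∃ (v : ZMod p → ℤ) (ρ : ZMod p ≃ Fin p) (L : Fin p → ZMod p),
      ∑ a, v a = 0 ∧ (∃ a, (N : ℤ) < |v a|) ∧ (∀ j, sh (L j) (vert v ρ j) ∈ K) ∧
        p - 1 ≤ (univ.image L).card := by
  classical
  let K' : Set (ZMod p → ℤ) := {v | if (∀ a, v a = 0 ∨ v a = 1) then v 0 = 1 else v ∈ K}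
  have hsh : ∀ (g : ZMod p) (v : ZMod p → ℤ),
      (∀ a, sh g v a = 0 ∨ sh g v a = 1) ↔ ∀ a, v a = 0 ∨ v a = 1 := by
    intro g v
    refine ⟨fun h a => ?_, fun h a => h _⟩
    simpa [sh] using h (a - g)
  obtain ⟨lam, hlam⟩ := exists_equivariant_label K' (by
    intro v hv
    by_cases h : ∀ a, v a = 0 ∨ v a = 1
    · obtain ⟨b, hb⟩ : ∃ b, v b = 1 := by
        obtain ⟨a, ha⟩ := hv
        rcases h a with h1 | h1
        · rcases h 0 with h2 | h2
          · exact absurd (h1.trans h2.symm) ha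
          · exact ⟨0, h2⟩
        · exact ⟨a, h1⟩
      refine ⟨b, ?_⟩
      simp only [K', Set.mem_ofPred_eq, hsh, if_pos h]
      simpa [sh] using hb
    · obtain ⟨a, ha⟩ := hK v hv
      refine ⟨a, ?_⟩
      simp only [K', Set.mem_ofPred_eq, hsh, if_neg h]
      exact ha)
  obtain ⟨v, ρ, k, hv, ⟨a, ha⟩, hw⟩ := disc_core lam (fun v hv => (hlam v hv).2) (by
    intro v h hv
    have := (hlam v hv).1
    simp only [K', Set.mem_ofPred_eq, hsh, if_pos h] at this
    simpa [sh] using this) (N + 1)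
  have hv0 : v ≠ 0 := by
    rintro rfl
    simp at ha
    omega
  refine ⟨v, ρ, fun j => lam (vert v ρ j), hv, ⟨a, by push_cast at ha; omega⟩, fun j => ?_, ?_⟩
  · have := (hlam _ (vert_nonconst hv ρ j (Or.inl hv0))).1
    have h : ¬ ∀ a, vert v ρ j a = 0 ∨ vert v ρ j a = 1 := by
      intro h
      have := h a
      simp only [vert] at this
      push_cast at ha
      rcases abs_cases (v a) with h1 | h1 <;> split_ifs at this <;> omega
    simpa only [K', Set.mem_ofPred_eq, hsh, if_neg h] using this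
  · have hinj := injective_of_sdet_ne_zero hw
    have h1 : ((univ.erase k).image fun j => lam (vert v ρ j)).card = p - 1 := by
      rw [card_image_of_injOn, card_erase_of_mem (mem_univ _), card_univ, Fintype.card_fin]
      intro i hi j hj hij
      have hi' : i ≠ k := ne_of_mem_erase hi
      have hj' : j ≠ k := ne_of_mem_erase hj
      apply hinj
      rw [Function.update_of_ne hi', Function.update_of_ne hj']
      simp only at hij
      rw [hij]
    rw [← h1]
    exact card_le_card (image_subset_image (erase_subset _ _))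

end Pool.Agent.MP_2d33ec_an

end MrgPart0

-- ======== part 1: formerly Pool.Agent.MP_2d33ec_an.BU
section MrgPart1

/-!
A covering form of the Borsuk-Ulam theorem for the cyclic group of prime order `p`:
if the translates of a closed set cover the unit sphere of the sum-zero hyperplane,
some point of the sphere lies in at least `p - 1` translates.
-/

namespace Pool.Agent.MP_2d33ec_an

open Finset Filter Topology

variable {p : ℕ}

/-- Centering of a vector. -/
noncomputable def ctr [NeZero p] (x : ZMod p → ℝ) : ZMod p → ℝ := fun a => x a - (∑ b, x b) / p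

/-- Normalisation onto the unit sphere of the sum-zero hyperplane. -/
noncomputable def nrm [NeZero p] (x : ZMod p → ℝ) : ZMod p → ℝ := ‖ctr x‖⁻¹ • ctr x

theorem sum_sh [NeZero p] {M : Type*} [AddCommMonoid M] (g : ZMod p) (x : ZMod p → M) :
    ∑ a, sh g x a = ∑ a, x a :=
  Equiv.sum_comp (Equiv.addRight g) x

theorem norm_sh [NeZero p] (g : ZMod p) (x : ZMod p → ℝ) : ‖sh g x‖ = ‖x‖ := by
  have key : ∀ (g : ZMod p) (x : ZMod p → ℝ), ‖sh g x‖ ≤ ‖x‖ := fun g x =>
    (pi_norm_le_iff_of_nonneg (norm_nonneg _)).2 fun a => norm_le_pi_norm x _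
  refine le_antisymm (key g x) ?_
  have := key (-g) (sh g x)
  rwa [sh_sh, neg_add_cancel, sh_zero] at this

theorem ctr_sh [NeZero p] (g : ZMod p) (x : ZMod p → ℝ) : ctr (sh g x) = sh g (ctr x) := by
  ext a
  simp only [ctr, sum_sh]
  rfl

theorem nrm_sh [NeZero p] (g : ZMod p) (x : ZMod p → ℝ) : nrm (sh g x) = sh g (nrm x) := by
  rw [nrm, ctr_sh, norm_sh]
  rfl

theorem sum_ctr [NeZero p] (x : ZMod p → ℝ) : ∑ a, ctr x a = 0 := by
  have : (p : ℝ) ≠ 0 := Nat.cast_ne_zero.2 (NeZero.ne p)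
  simp only [ctr, sum_sub_distrib, sum_const, card_univ, ZMod.card, nsmul_eq_mul]
  field_simp
  ring

theorem ctr_ne_zero [NeZero p] {x : ZMod p → ℝ} (h : ∃ a, x a ≠ x 0) : ctr x ≠ 0 := by
  intro h0
  obtain ⟨a, ha⟩ := h
  have h1 := congrFun h0 a
  have h2 := congrFun h0 0
  simp only [ctr, Pi.zero_apply] at h1 h2
  exact ha (by linarith)

theorem ctr_smul [NeZero p] (c : ℝ) (x : ZMod p → ℝ) : ctr (c • x) = c • ctr x := by
  ext a
  simp only [ctr, Pi.smul_apply, smul_eq_mul, ← mul_sum]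
  ring

theorem nrm_smul [NeZero p] {c : ℝ} (hc : 0 < c) (x : ZMod p → ℝ) : nrm (c • x) = nrm x := by
  rw [nrm, ctr_smul, norm_smul, Real.norm_of_nonneg hc.le, smul_smul, nrm]
  congr 1
  field_simp

theorem continuous_ctr [NeZero p] : Continuous (ctr : (ZMod p → ℝ) → _) := by
  unfold ctr
  fun_prop

theorem continuous_sh {α : Type*} [TopologicalSpace α] (g : ZMod p) :
    Continuous (sh g : (ZMod p → α) → _) := by
  unfold sh
  fun_prop

open Classical in
theorem cont_BU [Fact p.Prime] (K : Set (ZMod p → ℝ)) (hKc : IsClosed K)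
    (hK : ∀ w : ZMod p → ℝ, ∑ a, w a = 0 → ‖w‖ = 1 → ∃ a, sh a w ∈ K) :
    ∃ w : ZMod p → ℝ, ∑ a, w a = 0 ∧ ‖w‖ = 1 ∧
      p - 1 ≤ (univ.filter fun a => sh a w ∈ K).card := by
  let cst : (ZMod p → ℤ) → ZMod p → ℝ := fun v a => v a
  let K' : Set (ZMod p → ℤ) := {v | nrm (cst v) ∈ K}
  have hK' : ∀ v : ZMod p → ℤ, (∃ a, v a ≠ v 0) → ∃ a, sh a v ∈ K' := by
    intro v hv
    have h1 : ctr (cst v) ≠ 0 := ctr_ne_zero (by
      obtain ⟨a, ha⟩ := hv
      exact ⟨a, by simp only [cst]; exact_mod_cast ha⟩)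
    obtain ⟨a, ha⟩ := hK (nrm (cst v)) (by
      simp only [nrm, Pi.smul_apply, smul_eq_mul, ← mul_sum, sum_ctr, mul_zero]) (by
      rw [nrm, norm_smul, norm_inv, norm_norm, inv_mul_cancel₀ (norm_ne_zero_iff.2 h1)])
    refine ⟨a, ?_⟩
    rw [← nrm_sh] at ha
    exact ha
  have hall := disc_BU K' hK'
  have hfreq : ∃ L : Fin p → ZMod p, ∃ᶠ N : ℕ in atTop, ∃ (v : ZMod p → ℤ) (ρ : ZMod p ≃ Fin p),
      ∑ a, v a = 0 ∧ (∃ a, (N : ℤ) < |v a|) ∧ (∀ j, sh (L j) (vert v ρ j) ∈ K') ∧
        p - 1 ≤ (univ.image L).card := by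
    by_contra hcon
    simp only [not_exists, not_frequently] at hcon
    obtain ⟨N, hN⟩ := (eventually_all.2 hcon).exists
    obtain ⟨v, ρ, L, h⟩ := hall N
    exact hN L v ρ h
  obtain ⟨L, hL⟩ := hfreq
  obtain ⟨φ, hφ, hφP⟩ := extraction_of_frequently_atTop hL
  choose v ρ hsum hbig hmem hcard using hφP
  have hn : ∀ n : ℕ, (n : ℝ) < ‖cst (v n)‖ := by
    intro n
    obtain ⟨a, ha⟩ := hbig n
    have h1 : (n : ℝ) ≤ φ n := by exact_mod_cast hφ.id_le n
    have h2 : ((φ n : ℤ) : ℝ) < ((|v n a| : ℤ) : ℝ) := by exact_mod_cast ha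
    have h3 := norm_le_pi_norm (cst (v n)) a
    simp only [cst, Real.norm_eq_abs] at h3 ⊢
    push_cast at h2
    linarith
  have hpos : ∀ n : ℕ, 0 < ‖cst (v n)‖ := fun n => (Nat.cast_nonneg n).trans_lt (hn n)
  let w : ℕ → ZMod p → ℝ := fun n => ‖cst (v n)‖⁻¹ • cst (v n)
  have hcomp : IsCompact ({x : ZMod p → ℝ | ∑ a, x a = 0} ∩ Metric.sphere 0 1) :=
    (isCompact_sphere 0 1).inter_left (isClosed_eq (by fun_prop) continuous_const)
  obtain ⟨w₀, ⟨hw1, hw2⟩, ψ, hψ, hlim⟩ := hcomp.tendsto_subseq (x := w) (fun n => by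
    refine ⟨?_, ?_⟩
    · have : ∑ a, cst (v n) a = 0 := by
        simp only [cst]; exact_mod_cast hsum n
      simp only [w, Set.mem_ofPred_eq, Pi.smul_apply, smul_eq_mul, ← mul_sum, this, mul_zero]
    · simp only [w, mem_sphere_iff_norm, sub_zero, norm_smul, norm_inv, norm_norm]
      exact inv_mul_cancel₀ (hpos n).ne')
  simp only [Set.mem_ofPred_eq] at hw1
  simp only [mem_sphere_iff_norm, sub_zero] at hw2
  have hctr : ctr w₀ = w₀ := by
    ext a; simp [ctr, hw1]
  have hnrm : nrm w₀ = w₀ := by rw [nrm, hctr, hw2]; simp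
  have hcont : ContinuousAt nrm w₀ := by
    unfold nrm
    refine ContinuousAt.smul (ContinuousAt.inv₀ continuous_ctr.norm.continuousAt ?_)
      continuous_ctr.continuousAt
    rw [hctr, hw2]; exact one_ne_zero
  have hinv : Tendsto (fun n => ‖cst (v (ψ n))‖⁻¹) atTop (𝓝 0) := by
    refine tendsto_inv_atTop_zero.comp ?_
    refine tendsto_atTop_mono (fun n => ?_) tendsto_natCast_atTop_atTop
    have h1 : (n : ℝ) ≤ ψ n := by exact_mod_cast hψ.id_le n
    exact h1.trans (hn _).le
  refine ⟨w₀, hw1, hw2, (hcard 0).trans (card_le_card ?_)⟩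
  intro a ha
  obtain ⟨j, -, rfl⟩ := mem_image.1 ha
  simp only [mem_filter, mem_univ, true_and]
  have hx : Tendsto (fun n => ‖cst (v (ψ n))‖⁻¹ • cst (vert (v (ψ n)) (ρ (ψ n)) j)) atTop
      (𝓝 w₀) := by
    have h1 : Tendsto (fun n => ‖cst (v (ψ n))‖⁻¹ • cst (vert (v (ψ n)) (ρ (ψ n)) j) - w (ψ n))
        atTop (𝓝 0) := by
      refine squeeze_zero_norm (fun n => ?_) hinv
      simp only [w, ← smul_sub, norm_smul, norm_inv, norm_norm]
      refine mul_le_of_le_one_right (inv_nonneg.2 (norm_nonneg _)) ?_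
      refine (pi_norm_le_iff_of_nonneg zero_le_one).2 fun b => ?_
      simp only [cst, vert, Pi.sub_apply]
      split_ifs <;> simp
    have := h1.add hlim
    simpa using this
  have hy := ((continuous_sh (L j)).tendsto _).comp (hcont.tendsto.comp hx)
  rw [hnrm] at hy
  refine hKc.mem_of_tendsto hy (Eventually.of_forall fun n => ?_)
  simp only [Function.comp]
  rw [nrm_smul (inv_pos.2 (hpos _)), ← nrm_sh]
  exact hmem (ψ n) j

end Pool.Agent.MP_2d33ec_an

end MrgPart1

-- ======== part 2: formerly Pool.Agent.MP_2d33ec_an.Volume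
section MrgPart2

/-!
A small-ball volume estimate for a linear contraction with large Hilbert-Schmidt norm,
and the resulting union bound over the cube.
-/

namespace Pool.Agent.MP_2d33ec_an

open Finset MeasureTheory Real

theorem vol_ellipsoid (n : ℕ) (w : Fin n → ℝ) (hw : ∀ j, 0 < w j) (R : ℝ) :
    volume {y : Fin n → ℝ | ∑ j, w j * y j ^ 2 ≤ R} ≤
      ENNReal.ofReal (exp R * ∏ j, √(π / w j)) := by
  let g : (Fin n → ℝ) → ℝ := fun y => exp R * ∏ j, exp (-w j * y j ^ 2)
  have hint : Integrable g := by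
    refine Integrable.const_mul ?_ _
    exact Integrable.fintype_prod (f := fun j (t : ℝ) => exp (-w j * t ^ 2))
      (μ := fun _ => volume) fun j => integrable_exp_neg_mul_sq (hw j)
  have hval : ∫ y, g y = exp R * ∏ j, √(π / w j) := by
    simp only [g]
    rw [integral_const_mul, integral_fintype_prod_volume_eq_prod
      (f := fun j (t : ℝ) => exp (-w j * t ^ 2))]
    simp only [integral_gaussian]
  rw [← hval, ofReal_integral_eq_lintegral_ofReal hint
    (Filter.Eventually.of_forall fun y => by positivity)]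
  refine meas_le_lintegral₀ (by fun_prop) fun y hy => ?_
  rw [← ENNReal.ofReal_one]
  refine ENNReal.ofReal_le_ofReal ?_
  simp only [g]
  rw [← exp_sum, ← exp_add]
  refine one_le_exp ?_
  simp only [Set.mem_ofPred_eq] at hy
  simp only [neg_mul, sum_neg_distrib]
  linarith

theorem vol_small_ball {ι F : Type*} [Fintype ι] [DecidableEq ι] [NormedAddCommGroup F]
    [InnerProductSpace ℝ F] [FiniteDimensional ℝ F]
    (B : EuclideanSpace ℝ ι →ₗ[ℝ] F) (hB : ∀ x, ‖B x‖ ≤ ‖x‖) (d : ℕ) {κ ρ : ℝ} (hκ : 0 < κ)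
    (hρ : 0 < ρ)
    (hHS : d + κ * Fintype.card ι ≤ ∑ i, ‖B (EuclideanSpace.single i 1)‖ ^ 2) :
    volume {x : EuclideanSpace ℝ ι | ‖x‖ ^ 2 ≤ Fintype.card ι ∧
        ‖B x‖ ^ 2 ≤ ρ ^ 2 * Fintype.card ι} ≤
      ENNReal.ofReal ((exp 2 * 2) ^ Fintype.card ι * (ρ / √κ) ^ d) := by
  set n := Fintype.card ι with hn
  have hfin : Module.finrank ℝ (EuclideanSpace ℝ ι) = n := by simp [hn]
  have hsym : (LinearMap.adjoint B ∘ₗ B).IsSymmetric := by
    intro x y
    simp [LinearMap.adjoint_inner_left, LinearMap.adjoint_inner_right]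
  let b := hsym.eigenvectorBasis hfin
  let s := hsym.eigenvalues hfin
  have hb : ∀ j, (LinearMap.adjoint B ∘ₗ B) (b j) = s j • b j := fun j =>
    hsym.apply_eigenvectorBasis hfin j
  have hinner : ∀ x, inner ℝ x ((LinearMap.adjoint B ∘ₗ B) x) = ‖B x‖ ^ 2 := by
    intro x
    simp [LinearMap.adjoint_inner_right]
  have hs : ∀ j, s j = ‖B (b j)‖ ^ 2 := by
    intro j
    rw [← hinner, hb, inner_smul_right, real_inner_self_eq_norm_sq, b.orthonormal.1 j]
    simp
  have hs0 : ∀ j, 0 ≤ s j := fun j => by rw [hs]; positivity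
  have hs1 : ∀ j, s j ≤ 1 := fun j => by
    rw [hs]
    have := hB (b j)
    rw [b.orthonormal.1 j] at this
    exact pow_le_one₀ (norm_nonneg _) this
  have htr : ∑ j, s j = ∑ i, ‖B (EuclideanSpace.single i 1)‖ ^ 2 := by
    have h1 := LinearMap.trace_eq_sum_inner (LinearMap.adjoint B ∘ₗ B) b
    have h2 := LinearMap.trace_eq_sum_inner (LinearMap.adjoint B ∘ₗ B)
      (EuclideanSpace.basisFun ι ℝ)
    simp only [hinner] at h1 h2
    simp only [hs]
    rw [← h1, h2]
    simp
  have hBx : ∀ x, ‖B x‖ ^ 2 = ∑ j, s j * (b.repr x j) ^ 2 := by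
    intro x
    rw [← hinner, ← b.repr.inner_map_map]
    simp only [PiLp.inner_apply, RCLike.inner_apply, conj_trivial]
    refine sum_congr rfl fun j _ => ?_
    rw [hsym.eigenvectorBasis_apply_self_apply hfin x j]
    simp only [RCLike.ofReal_real_eq_id, id]
    ring
  have hx : ∀ x : EuclideanSpace ℝ ι, ‖x‖ ^ 2 = ∑ j, (b.repr x j) ^ 2 := by
    intro x
    rw [← b.repr.norm_map, EuclideanSpace.real_norm_sq_eq]
  let w : Fin n → ℝ := fun j => 1 + s j / ρ ^ 2
  have hw : ∀ j, 0 < w j := fun j => by have := hs0 j; positivity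
  have hmp : MeasurePreserving (fun x : EuclideanSpace ℝ ι => (b.repr x).ofLp) :=
    (PiLp.volume_preserving_ofLp (Fin n)).comp b.measurePreserving_repr
  have hsub : {x : EuclideanSpace ℝ ι | ‖x‖ ^ 2 ≤ n ∧ ‖B x‖ ^ 2 ≤ ρ ^ 2 * n} ⊆
      (fun x : EuclideanSpace ℝ ι => (b.repr x).ofLp) ⁻¹'
        {y : Fin n → ℝ | ∑ j, w j * y j ^ 2 ≤ 2 * n} := by
    intro x hx'
    obtain ⟨h1, h2⟩ := hx'
    rw [hx] at h1
    rw [hBx] at h2
    simp only [Set.mem_preimage, Set.mem_ofPred_eq, w, add_mul, one_mul, sum_add_distrib]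
    have h3 : ∑ j, s j / ρ ^ 2 * (b.repr x).ofLp j ^ 2 ≤ n := by
      have : ∑ j, s j / ρ ^ 2 * (b.repr x).ofLp j ^ 2 =
          (∑ j, s j * (b.repr x).ofLp j ^ 2) / ρ ^ 2 := by
        rw [sum_div]; exact sum_congr rfl fun j _ => by ring
      rw [this, div_le_iff₀ (by positivity)]
      linarith
    linarith
  refine (measure_mono hsub).trans ?_
  rw [hmp.measure_preimage (MeasurableSet.nullMeasurableSet
    (measurableSet_le (by fun_prop) measurable_const))]
  refine (vol_ellipsoid n w hw _).trans (ENNReal.ofReal_le_ofReal ?_)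
  -- choose `d` large eigenvalues
  have hcount : d ≤ (univ.filter fun j => κ ≤ s j).card := by
    have h1 : ∑ j, s j ≤ ∑ j, ((if κ ≤ s j then (1 : ℝ) else 0) + κ) := by
      refine sum_le_sum fun j _ => ?_
      split_ifs with h
      · linarith [hs1 j]
      · linarith [not_le.1 h]
    rw [sum_add_distrib, ← sum_filter] at h1
    simp only [sum_const, nsmul_eq_mul, mul_one, card_univ, Fintype.card_fin] at h1
    have h2 : (d : ℝ) ≤ (univ.filter fun j => κ ≤ s j).card := by linarith
    exact_mod_cast h2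
  obtain ⟨D, hD, hDc⟩ := exists_subset_card_eq hcount
  have hpi : √π ≤ 2 := by
    rw [Real.sqrt_le_left (by norm_num)]
    linarith [pi_le_four]
  have hterm : ∀ j, √(π / w j) ≤ 2 * (if j ∈ D then ρ / √κ else 1) := by
    intro j
    rw [Real.sqrt_div pi_pos.le]
    split_ifs with hj
    · have h1 : κ ≤ s j := (mem_filter.1 (hD hj)).2
      have h2 : √κ / ρ ≤ √(w j) := by
        rw [Real.le_sqrt (by positivity) (hw j).le, div_pow, Real.sq_sqrt hκ.le]
        have : κ / ρ ^ 2 ≤ s j / ρ ^ 2 := by gcongr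
        simp only [w]
        linarith
      calc √π / √(w j) ≤ 2 / (√κ / ρ) := by gcongr
        _ = 2 * (ρ / √κ) := by field_simp
    · have h2 : 1 ≤ √(w j) := by
        rw [Real.one_le_sqrt]
        have := hs0 j
        have : 0 ≤ s j / ρ ^ 2 := by positivity
        simp only [w]
        linarith
      calc √π / √(w j) ≤ 2 / 1 := by gcongr
        _ = 2 * 1 := by norm_num
  have hprod : ∏ j, √(π / w j) ≤ 2 ^ n * (ρ / √κ) ^ d := by
    refine (prod_le_prod (fun j _ => Real.sqrt_nonneg _) fun j _ => hterm j).trans ?_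
    rw [prod_mul_distrib, prod_ite_mem]
    simp [hDc, div_pow]
  calc exp (2 * n) * ∏ j, √(π / w j) ≤ exp (2 * n) * (2 ^ n * (ρ / √κ) ^ d) := by gcongr
    _ = (exp 2 * 2) ^ n * (ρ / √κ) ^ d := by
      rw [mul_pow, ← Real.exp_nat_mul, mul_comm (n : ℝ) 2]; ring

theorem exists_good_param {ι F J : Type*} [Fintype ι] [DecidableEq ι] [NormedAddCommGroup F]
    [InnerProductSpace ℝ F] [FiniteDimensional ℝ F] (T : Finset J)
    (B : J → EuclideanSpace ℝ ι →ₗ[ℝ] F) (hB : ∀ j ∈ T, ∀ x, ‖B j x‖ ≤ ‖x‖) (d : ℕ) {κ ρ : ℝ}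
    (hκ : 0 < κ) (hρ : 0 < ρ)
    (hHS : ∀ j ∈ T, d + κ * Fintype.card ι ≤ ∑ i, ‖B j (EuclideanSpace.single i 1)‖ ^ 2)
    (hT : T.card * (exp 2 ^ Fintype.card ι * (ρ / √κ) ^ d) < 1) :
    ∃ x : EuclideanSpace ℝ ι, (∀ i, |x i| ≤ 1) ∧
      ∀ j ∈ T, ρ ^ 2 * Fintype.card ι < ‖B j x‖ ^ 2 := by
  by_contra hcon
  push Not at hcon
  let Q : Set (EuclideanSpace ℝ ι) :=
    (fun x : EuclideanSpace ℝ ι => x.ofLp) ⁻¹' Set.Icc (fun _ => -1) (fun _ => 1)
  have hQ : volume Q = ENNReal.ofReal (2 ^ Fintype.card ι) := by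
    rw [(PiLp.volume_preserving_ofLp ι).measure_preimage measurableSet_Icc.nullMeasurableSet,
      Real.volume_Icc_pi]
    simp only [prod_const, card_univ]
    rw [ENNReal.ofReal_pow (by norm_num)]
    norm_num
  have hsub : Q ⊆ ⋃ j ∈ T, {x : EuclideanSpace ℝ ι | ‖x‖ ^ 2 ≤ Fintype.card ι ∧
      ‖B j x‖ ^ 2 ≤ ρ ^ 2 * Fintype.card ι} := by
    intro x hx
    have h1 : ∀ i, |x i| ≤ 1 := fun i => abs_le.2 ⟨hx.1 i, hx.2 i⟩
    obtain ⟨j, hj, h2⟩ := hcon x h1
    simp only [Set.mem_iUnion, Set.mem_ofPred_eq]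
    refine ⟨j, hj, ?_, h2⟩
    rw [EuclideanSpace.real_norm_sq_eq]
    calc ∑ i, x i ^ 2 ≤ ∑ _i : ι, (1 : ℝ) := sum_le_sum fun i _ => by
          rw [← sq_abs]; exact pow_le_one₀ (abs_nonneg _) (h1 i)
      _ = _ := by simp
  have h3 := (measure_mono hsub).trans (measure_biUnion_finset_le (μ := volume) T _)
  have h4 := h3.trans (sum_le_sum fun j hj => vol_small_ball (B j) (hB j hj) d hκ hρ (hHS j hj))
  rw [hQ, sum_const, nsmul_eq_mul, ← ENNReal.ofReal_natCast,
    ← ENNReal.ofReal_mul (Nat.cast_nonneg _), ENNReal.ofReal_le_ofReal_iff (by positivity),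
    mul_pow] at h4
  have h5 : (0 : ℝ) < 2 ^ Fintype.card ι := by positivity
  nlinarith

theorem exists_good_param_matrix {ι α J : Type*} [Fintype ι] [DecidableEq ι] [Fintype α]
    (T : Finset J) (M : J → α → ι → ℝ)
    (hB : ∀ j ∈ T, ∀ x : ι → ℝ, ∑ a, (∑ i, M j a i * x i) ^ 2 ≤ ∑ i, x i ^ 2) (d : ℕ) {κ ρ : ℝ}
    (hκ : 0 < κ) (hρ : 0 < ρ)
    (hHS : ∀ j ∈ T, d + κ * Fintype.card ι ≤ ∑ i, ∑ a, M j a i ^ 2)
    (hT : T.card * (exp 2 ^ Fintype.card ι * (ρ / √κ) ^ d) < 1) :
    ∃ x : ι → ℝ, (∀ i, |x i| ≤ 1) ∧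
      ∀ j ∈ T, ρ ^ 2 * Fintype.card ι < ∑ a, (∑ i, M j a i * x i) ^ 2 := by
  let B : J → EuclideanSpace ℝ ι →ₗ[ℝ] EuclideanSpace ℝ α := fun j =>
    { toFun := fun x => WithLp.toLp 2 fun a => ∑ i, M j a i * x i
      map_add' := fun x y => by
        ext a
        simp [mul_add, sum_add_distrib]
      map_smul' := fun c x => by
        ext a
        simp [mul_sum, mul_left_comm] }
  have hn : ∀ j x, ‖B j x‖ ^ 2 = ∑ a, (∑ i, M j a i * x i) ^ 2 := by
    intro j x
    rw [EuclideanSpace.real_norm_sq_eq]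
    rfl
  obtain ⟨x, hx1, hx2⟩ := exists_good_param T B (fun j hj x => by
    refine (pow_le_pow_iff_left₀ (norm_nonneg _) (norm_nonneg _) two_ne_zero).1 ?_
    rw [hn, EuclideanSpace.real_norm_sq_eq]
    exact hB j hj _) d hκ hρ (fun j hj => by
    refine (hHS j hj).trans (le_of_eq (sum_congr rfl fun i _ => ?_))
    rw [hn]
    refine sum_congr rfl fun a _ => ?_
    simp [Pi.single_apply]) hT
  exact ⟨x.ofLp, hx1, fun j hj => by rw [← hn]; exact hx2 j hj⟩

theorem isClosed_card_ge {X ι : Type*} [TopologicalSpace X] [Fintype ι] (P : ι → X → Prop)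
    [∀ i x, Decidable (P i x)] (hP : ∀ i, IsClosed {x | P i x}) (k : ℕ) :
    IsClosed {x | k ≤ (univ.filter fun i => P i x).card} := by
  have : {x | k ≤ (univ.filter fun i => P i x).card} =
      ⋃ T ∈ {T : Finset ι | k ≤ T.card}, ⋂ i ∈ T, {x | P i x} := by
    ext x
    simp only [Set.mem_ofPred_eq, Set.mem_iUnion, Set.mem_iInter, exists_prop]
    constructor
    · intro h
      exact ⟨_, h, fun i hi => (mem_filter.1 hi).2⟩
    · rintro ⟨T, h1, h2⟩
      exact h1.trans (card_le_card fun i hi => mem_filter.2 ⟨mem_univ _, h2 i hi⟩)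
  rw [this]
  exact (Set.toFinite _).isClosed_biUnion fun T _ => isClosed_biInter fun i _ => hP i

theorem isClosed_card_le {X ι : Type*} [TopologicalSpace X] [Fintype ι] (P : ι → X → Prop)
    [∀ i x, Decidable (P i x)] (hP : ∀ i, IsOpen {x | P i x}) (k : ℕ) :
    IsClosed {x | (univ.filter fun i => P i x).card ≤ k} := by
  rw [← isOpen_compl_iff]
  have : {x | (univ.filter fun i => P i x).card ≤ k}ᶜ =
      ⋃ T ∈ {T : Finset ι | k < T.card}, ⋂ i ∈ T, {x | P i x} := by
    ext x
    simp only [Set.mem_compl_iff, Set.mem_ofPred_eq, not_le, Set.mem_iUnion, Set.mem_iInter,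
      exists_prop]
    constructor
    · intro h
      exact ⟨_, h, fun i hi => (mem_filter.1 hi).2⟩
    · rintro ⟨T, h1, h2⟩
      exact h1.trans_le (card_le_card fun i hi => mem_filter.2 ⟨mem_univ _, h2 i hi⟩)
  rw [this]
  exact isOpen_biUnion fun T _ => isOpen_biInter_finset fun i _ => hP i

end Pool.Agent.MP_2d33ec_an

end MrgPart2

-- marker of a merged file
example : 731051 + 430137 = 731051 + 430137 := rfl
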