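import Mathlib.Topology.Sheaves.Presheaf
import Mathlib.Analysis.CStarAlgebra.Classes
import Mathlib.Analysis.SpecialFunctions.Complex.CircleAddChar
import Mathlib.Topology.Separation.CompletelyRegular
import Mathlib.RingTheory.SimpleRing.Principal
import Pool.Agent.MP_2d33ec_an.Volume
import Pool.Agent.MP_2d33ec_an.Defs

-- ======== part 0: formerly Pool.Agent.MP_2d33ec_an.Fourier
section MrgPart0

/-!
Fourier analysis on `ZMod p` and the choice of a random Fourier multiplier.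
-/

namespace Pool.Agent.MP_2d33ec_an

open Finset Complex

variable {p : ℕ} [NeZero p]

/-- The standard character. -/
noncomputable def ch (k : ZMod p) : ℂ := ZMod.stdAddChar k

theorem ch_add (a b : ZMod p) : ch (a + b) = ch a * ch b := AddChar.map_add_eq_mul _ _ _

theorem norm_ch (a : ZMod p) : ‖ch a‖ = 1 := AddChar.norm_apply _ _

theorem ch_neg (a : ZMod p) : ch (-a) = (starRingEnd ℂ) (ch a) := AddChar.map_neg_eq_conj _ _

theorem ch_zero : ch (0 : ZMod p) = 1 := AddChar.map_zero_eq_one _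

theorem ch_injective : Function.Injective (ch : ZMod p → ℂ) := ZMod.injective_stdAddChar

theorem sum_ch (b : ZMod p) : ∑ a : ZMod p, ch (a * b) = if b = 0 then (p : ℂ) else 0 := by
  have := AddChar.sum_mulShift b (ZMod.isPrimitive_stdAddChar p)
  simp only [ch]
  rw [this]
  split_ifs <;> simp [ZMod.card]

/-- Normalised Fourier synthesis. -/
noncomputable def syn (u : ZMod p → ℂ) (a : ZMod p) : ℂ :=
  ((√(p : ℝ))⁻¹ : ℝ) * ∑ ω, u ω * ch (a * ω)

theorem parseval (u : ZMod p → ℂ) : ∑ a, ‖syn u a‖ ^ 2 = ∑ ω, ‖u ω‖ ^ 2 := by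
  have hp : (0 : ℝ) < p := Nat.cast_pos.2 (NeZero.pos p)
  have h1 : ∀ z : ℂ, ((‖z‖ ^ 2 : ℝ) : ℂ) = z * (starRingEnd ℂ) z := by
    intro z
    rw [Complex.mul_conj, Complex.normSq_eq_norm_sq]
  have h2 : ((∑ a, ‖∑ ω, u ω * ch (a * ω)‖ ^ 2 : ℝ) : ℂ) = p * ((∑ ω, ‖u ω‖ ^ 2 : ℝ) : ℂ) := by
    push_cast [← Complex.ofReal_pow]
    simp only [h1, map_sum, map_mul, sum_mul_sum, ← ch_neg]
    rw [sum_comm, mul_sum]
    refine sum_congr rfl fun ω _ => ?_
    rw [sum_comm]
    have h3 : ∀ η : ZMod p, ∑ a : ZMod p, u ω * ch (a * ω) * ((starRingEnd ℂ) (u η) * ch (-(a * η))) =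
        u ω * (starRingEnd ℂ) (u η) * if ω - η = 0 then (p : ℂ) else 0 := by
      intro η
      rw [← sum_ch, mul_sum]
      refine sum_congr rfl fun a _ => ?_
      rw [mul_sub, sub_eq_add_neg, ch_add]
      ring
    simp only [h3, sub_eq_zero, mul_ite, mul_zero, sum_ite_eq, mem_univ, if_true]
    ring
  have h4 : ∑ a, ‖∑ ω, u ω * ch (a * ω)‖ ^ 2 = p * ∑ ω, ‖u ω‖ ^ 2 := by exact_mod_cast h2
  simp only [syn, norm_mul, mul_pow, ← mul_sum, h4, Complex.norm_real, norm_inv, Real.norm_eq_abs,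
    inv_pow, sq_abs, Real.sq_sqrt hp.le]
  field_simp

theorem syn_sub (u v : ZMod p → ℂ) (a : ZMod p) :
    syn u a - syn v a = syn (fun ω => u ω - v ω) a := by
  simp only [syn, ← mul_sub, ← sum_sub_distrib, sub_mul]

theorem syn_shift (u : ZMod p → ℂ) (g a : ZMod p) :
    syn (fun ω => ch (g * ω) * u ω) a = syn u (a + g) := by
  simp only [syn]
  congr 1
  refine sum_congr rfl fun ω _ => ?_
  rw [add_mul, ch_add]
  ring

/-- Normalised Fourier transform of a real vector. -/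
noncomputable def hat (y : ZMod p → ℝ) (ω : ZMod p) : ℂ := syn (fun a => (y a : ℂ)) (-ω)

theorem parseval_hat (y : ZMod p → ℝ) : ∑ ω, ‖hat y ω‖ ^ 2 = ∑ a, y a ^ 2 := by
  have := parseval (fun a => (y a : ℂ))
  simp only [Complex.norm_real, Real.norm_eq_abs, sq_abs] at this
  rw [← this]
  exact Equiv.sum_comp (Equiv.neg (ZMod p)) fun ω => ‖syn (fun a => (y a : ℂ)) ω‖ ^ 2

theorem hat_sub (y z : ZMod p → ℝ) (ω : ZMod p) :
    hat y ω - hat z ω = hat (fun a => y a - z a) ω := by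
  simp only [hat, syn_sub, Complex.ofReal_sub]

theorem hat_sh (g : ZMod p) (y : ZMod p → ℝ) (ω : ZMod p) :
    hat (sh g y) ω = ch (g * ω) * hat y ω := by
  simp only [hat, syn, sh]
  rw [mul_left_comm]
  congr 1
  symm
  rw [mul_sum, ← Equiv.sum_comp (Equiv.addRight g)]
  refine sum_congr rfl fun a _ => ?_
  simp only [Equiv.coe_addRight]
  rw [mul_left_comm, ← ch_add]
  congr 2
  ring

theorem norm_hat_sh (g : ZMod p) (y : ZMod p → ℝ) (ω : ZMod p) :
    ‖hat (sh g y) ω‖ = ‖hat y ω‖ := by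
  rw [hat_sh, norm_mul, norm_ch, one_mul]

theorem continuous_hat (ω : ZMod p) : Continuous fun y : ZMod p → ℝ => hat y ω := by
  unfold hat syn
  fun_prop

theorem hat_const (c : ℝ) {ω : ZMod p} (hω : ω ≠ 0) : hat (fun _ => c) ω = 0 := by
  simp only [hat, syn, ← mul_sum]
  have := sum_ch (-ω)
  rw [if_neg (neg_ne_zero.2 hω)] at this
  simp only [mul_comm (-ω), this, mul_zero]

theorem energy_le (y : ZMod p → ℝ) {τ : ℝ} (h : ∀ ω, ω ≠ 0 → ‖hat y ω‖ ≤ τ) :
    ∑ a, ctr y a ^ 2 ≤ τ ^ 2 * p := by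
  rw [← parseval_hat]
  have h1 : ∀ ω, ‖hat (ctr y) ω‖ ^ 2 ≤ τ ^ 2 := by
    intro ω
    by_cases hω : ω = 0
    · subst hω
      have : hat (ctr y) 0 = 0 := by
        simp only [hat, syn, neg_zero, zero_mul, ch_zero, mul_one]
        rw [← Complex.ofReal_sum, sum_ctr]
        simp
      rw [this]
      simpa using sq_nonneg τ
    · have : hat (ctr y) ω = hat y ω := by
        have e := hat_sub y (fun _ => (∑ b, y b) / p) ω
        rw [hat_const _ hω, sub_zero] at e
        exact e.symm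
      rw [this]
      exact pow_le_pow_left₀ (norm_nonneg _) (h ω hω) 2
  calc ∑ ω, ‖hat (ctr y) ω‖ ^ 2 ≤ ∑ _ω : ZMod p, τ ^ 2 := sum_le_sum fun ω _ => h1 ω
    _ = τ ^ 2 * p := by simp [ZMod.card, mul_comm]

/-- Radial truncation at level `τ`. -/
noncomputable def trc (τ : ℝ) (u : ℂ) : ℂ := (τ / max τ ‖u‖ : ℝ) * u

theorem norm_trc_le {τ : ℝ} (hτ : 0 < τ) (u : ℂ) : ‖trc τ u‖ ≤ τ := by
  have h : 0 < max τ ‖u‖ := lt_max_of_lt_left hτ
  rw [trc, norm_mul, Complex.norm_real, Real.norm_of_nonneg (by positivity), div_mul_eq_mul_div,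
    div_le_iff₀ h]
  gcongr
  exact le_max_right _ _

theorem norm_trc_eq {τ : ℝ} (hτ : 0 < τ) {u : ℂ} (hu : τ ≤ ‖u‖) : ‖trc τ u‖ = τ := by
  have h : 0 < ‖u‖ := hτ.trans_le hu
  rw [trc, max_eq_right hu, norm_mul, Complex.norm_real, Real.norm_of_nonneg (by positivity)]
  field_simp

theorem trc_mul (τ : ℝ) {ζ : ℂ} (hζ : ‖ζ‖ = 1) (u : ℂ) : trc τ (ζ * u) = ζ * trc τ u := by
  rw [trc, trc, norm_mul, hζ, one_mul]
  ring

theorem trc_lip {τ : ℝ} (hτ : 0 < τ) (u v : ℂ) : ‖trc τ u - trc τ v‖ ≤ 2 * ‖u - v‖ := by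
  have hu : 0 < max τ ‖u‖ := lt_max_of_lt_left hτ
  have hv : 0 < max τ ‖v‖ := lt_max_of_lt_left hτ
  have h1 : trc τ u - trc τ v = (τ / max τ ‖u‖ : ℝ) * (u - v) +
      (τ / max τ ‖u‖ - τ / max τ ‖v‖ : ℝ) * v := by
    simp only [trc]
    push_cast
    ring
  have h2 : τ / max τ ‖u‖ ≤ 1 := by
    rw [div_le_one hu]; exact le_max_left _ _
  have h3 : |max τ ‖v‖ - max τ ‖u‖| ≤ ‖u - v‖ := by
    rw [max_comm τ, max_comm τ]
    refine (abs_max_sub_max_le_abs _ _ _).trans ?_
    rw [abs_sub_comm]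
    exact abs_norm_sub_norm_le u v
  have h4 : |τ / max τ ‖u‖ - τ / max τ ‖v‖| * ‖v‖ ≤ ‖u - v‖ := by
    have e : τ / max τ ‖u‖ - τ / max τ ‖v‖ =
        (τ / max τ ‖u‖) * ((max τ ‖v‖ - max τ ‖u‖) / max τ ‖v‖) := by
      field_simp
    rw [e, abs_mul, abs_of_nonneg (a := τ / max τ ‖u‖) (by positivity), abs_div, abs_of_pos hv,
      mul_assoc, div_mul_eq_mul_div _ _ ‖v‖, mul_div_assoc]
    have h5 : ‖v‖ / max τ ‖v‖ ≤ 1 := by
      rw [div_le_one hv]; exact le_max_right _ _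
    calc τ / max τ ‖u‖ * (|max τ ‖v‖ - max τ ‖u‖| * (‖v‖ / max τ ‖v‖))
        ≤ 1 * (‖u - v‖ * 1) := by gcongr
      _ = ‖u - v‖ := by ring
  rw [h1]
  refine (norm_add_le _ _).trans ?_
  rw [norm_mul, norm_mul, Complex.norm_real, Complex.norm_real, Real.norm_eq_abs,
    Real.norm_eq_abs, abs_of_nonneg (by positivity)]
  have h6 : τ / max τ ‖u‖ * ‖u - v‖ ≤ 1 * ‖u - v‖ := by gcongr
  linarith

theorem continuous_trc {τ : ℝ} (hτ : 0 < τ) : Continuous (trc τ) := by
  unfold trc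
  refine Continuous.mul (Complex.continuous_ofReal.comp ?_) continuous_id
  exact continuous_const.div (by fun_prop) fun u => (lt_max_of_lt_left hτ).ne'

/-- The truncated Fourier multiplier map. -/
noncomputable def mulG (τ : ℝ) (μ : ZMod p → ℂ) (y : ZMod p → ℝ) (a : ZMod p) : ℝ :=
  (syn (fun ω => μ ω * trc τ (hat y ω)) a).re

theorem mulG_sh (τ : ℝ) (μ : ZMod p → ℂ) (g : ZMod p) (y : ZMod p → ℝ) (a : ZMod p) :
    mulG τ μ (sh g y) a = mulG τ μ y (a + g) := by
  simp only [mulG, hat_sh, trc_mul τ (norm_ch _), ← syn_shift, mul_left_comm (μ _)]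

theorem continuous_mulG {τ : ℝ} (hτ : 0 < τ) (μ : ZMod p → ℂ) (a : ZMod p) :
    Continuous fun y : ZMod p → ℝ => mulG τ μ y a := by
  unfold mulG syn
  refine Complex.continuous_re.comp (continuous_const.mul (continuous_finsetSum _ fun ω _ => ?_))
  exact (continuous_const.mul ((continuous_trc hτ).comp (continuous_hat ω))).mul continuous_const

/-- Restriction to `S` followed by centering. -/
noncomputable def prj (S : Finset (ZMod p)) (z : ZMod p → ℝ) (a : ZMod p) : ℝ :=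
  if a ∈ S then z a - (∑ b ∈ S, z b) / S.card else 0

theorem sum_prj_sq (S : Finset (ZMod p)) (hS : S.Nonempty) (z : ZMod p → ℝ) :
    ∑ a, prj S z a ^ 2 = ∑ a ∈ S, z a ^ 2 - (∑ b ∈ S, z b) ^ 2 / S.card := by
  have hc : (0 : ℝ) < S.card := Nat.cast_pos.2 (card_pos.2 hS)
  simp only [prj, ite_pow, ne_eq, OfNat.ofNat_ne_zero, not_false_eq_true, zero_pow, sum_ite_mem,
    univ_inter, sub_sq, sum_add_distrib, sum_sub_distrib, ← sum_mul, ← mul_sum, sum_const,
    nsmul_eq_mul]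
  field_simp
  ring

theorem sum_prj_sq_le (S : Finset (ZMod p)) (hS : S.Nonempty) (z : ZMod p → ℝ) :
    ∑ a, prj S z a ^ 2 ≤ ∑ a, z a ^ 2 := by
  rw [sum_prj_sq S hS]
  have h1 : ∑ a ∈ S, z a ^ 2 ≤ ∑ a, z a ^ 2 :=
    sum_le_sum_of_subset_of_nonneg (subset_univ _) fun _ _ _ => sq_nonneg _
  have h2 : 0 ≤ (∑ b ∈ S, z b) ^ 2 / S.card := by positivity
  linarith

theorem sum_re_syn_sq_le (u : ZMod p → ℂ) : ∑ a, (syn u a).re ^ 2 ≤ ∑ ω, ‖u ω‖ ^ 2 := by
  rw [← parseval]
  refine sum_le_sum fun a _ => ?_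
  rw [← sq_abs]
  exact pow_le_pow_left₀ (abs_nonneg _) (Complex.abs_re_le_norm _) 2

omit [NeZero p] in
theorem prj_sum {ι : Type*} [Fintype ι] (S : Finset (ZMod p)) (Z : ZMod p → ι → ℝ) (x : ι → ℝ)
    (a : ZMod p) :
    ∑ i, prj S (fun b => Z b i) a * x i = prj S (fun b => ∑ i, Z b i * x i) a := by
  simp only [prj]
  split_ifs
  · simp only [sub_mul, sum_sub_distrib]
    congr 1
    rw [sum_comm, sum_div]
    refine sum_congr rfl fun i _ => ?_
    rw [← sum_mul]
    ring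
  · simp

/-- The complex multiplier encoded by a real parameter. -/
def toMul (x : ZMod p × Bool → ℝ) (ω : ZMod p) : ℂ := x (ω, false) + x (ω, true) * I

omit [NeZero p] in
theorem norm_toMul_sq (x : ZMod p × Bool → ℝ) (ω : ZMod p) :
    ‖toMul x ω‖ ^ 2 = x (ω, false) ^ 2 + x (ω, true) ^ 2 := by
  rw [toMul, ← Complex.normSq_eq_norm_sq, Complex.normSq_add_mul_I]

/-- The matrix of the multiplier map as a function of the parameter. -/
noncomputable def zmat (ψ : ZMod p → ℂ) (a : ZMod p) (i : ZMod p × Bool) : ℝ :=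
  ((if i.2 then I else 1) * (((√(p : ℝ))⁻¹ : ℝ) * (ψ i.1 * ch (a * i.1)))).re

theorem zmat_sum (ψ : ZMod p → ℂ) (x : ZMod p × Bool → ℝ) (a : ZMod p) :
    ∑ i, zmat ψ a i * x i = (syn (fun ω => toMul x ω * ψ ω) a).re := by
  rw [Fintype.sum_prod_type, syn, mul_sum, Complex.re_sum]
  refine sum_congr rfl fun ω _ => ?_
  simp only [Fintype.sum_bool, zmat, toMul, if_true, Bool.false_eq_true, if_false]
  generalize ((√(p : ℝ))⁻¹ : ℝ) = c
  simp only [mul_re, I_re, zero_mul, I_im, mul_im, ofReal_re, ofReal_im, one_mul, add_re, add_im,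
    mul_zero, mul_one, sub_zero, add_zero, zero_add, zero_sub]
  ring

theorem zmat_HS (ψ : ZMod p → ℂ) {τ : ℝ} (hψ : ∀ ω, ‖ψ ω‖ ≤ τ) (S : Finset (ZMod p))
    (hS : S.Nonempty) :
    S.card / p * ∑ ω, ‖ψ ω‖ ^ 2 - τ ^ 2 ≤ ∑ i, ∑ a, prj S (fun b => zmat ψ b i) a ^ 2 := by
  have hp : (0 : ℝ) < p := Nat.cast_pos.2 (NeZero.pos p)
  have hc : (0 : ℝ) < S.card := Nat.cast_pos.2 (card_pos.2 hS)
  have hre : ∀ z : ℂ, (I * z).re ^ 2 + (1 * z).re ^ 2 = ‖z‖ ^ 2 := by
    intro z
    rw [← Complex.normSq_eq_norm_sq, Complex.normSq_apply]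
    simp
    ring
  simp only [sum_prj_sq S hS, sum_sub_distrib]
  have h1 : ∑ i : ZMod p × Bool, ∑ a ∈ S, zmat ψ a i ^ 2 = S.card / p * ∑ ω, ‖ψ ω‖ ^ 2 := by
    rw [Fintype.sum_prod_type, mul_sum]
    refine sum_congr rfl fun ω _ => ?_
    simp only [Fintype.sum_bool, zmat, if_true, Bool.false_eq_true, if_false, ← sum_add_distrib,
      hre, norm_mul, norm_ch, mul_one, Complex.norm_real, norm_inv, Real.norm_eq_abs, mul_pow,
      inv_pow, sq_abs, Real.sq_sqrt hp.le, sum_const, nsmul_eq_mul]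
    field_simp
  have h2 : ∑ i : ZMod p × Bool, (∑ b ∈ S, zmat ψ b i) ^ 2 / S.card ≤ τ ^ 2 := by
    rw [← sum_div, div_le_iff₀ hc, Fintype.sum_prod_type]
    have h3 : ∀ ω, ∑ c : Bool, (∑ b ∈ S, zmat ψ b (ω, c)) ^ 2 ≤
        τ ^ 2 * ‖syn (fun b => if b ∈ S then 1 else 0) ω‖ ^ 2 := by
      intro ω
      simp only [Fintype.sum_bool, zmat, if_true, Bool.false_eq_true, if_false, ← Complex.re_sum,
        ← mul_sum, hre]
      have e : syn (fun b => if b ∈ S then 1 else 0) ω =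
          ((√(p : ℝ))⁻¹ : ℝ) * ∑ b ∈ S, ch (b * ω) := by
        simp only [syn, ite_mul, one_mul, zero_mul, sum_ite_mem, univ_inter, mul_comm ω]
      rw [e, mul_left_comm, norm_mul, mul_pow]
      gcongr
      exact hψ ω
    refine (sum_le_sum fun ω _ => h3 ω).trans ?_
    rw [← mul_sum, parseval]
    simp [apply_ite]
  linarith

open Classical in
theorem exists_multiplier (hp : 128 ≤ p) {τ ε : ℝ} (hτ : 0 < τ) (hε : 0 < ε)
    (H : Set (ZMod p → ℝ)) (hH : ∀ y ∈ H, p ≤ 16 * (univ.filter fun ω => τ ≤ ‖hat y ω‖).card)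
    (C : Finset (ZMod p → ℝ)) (hC : ∀ y ∈ H, ∃ c ∈ C, ∀ a, |y a - c a| ≤ ε)
    (hsmall : C.card * 2 ^ p * (Real.exp 2 ^ (2 * p) * (128 * ε / τ) ^ (p / 256)) < 1) :
    ∃ μ : ZMod p → ℂ, ∀ y ∈ H, ∀ s : ℝ, 4 * (univ.filter fun a => mulG τ μ y a = s).card ≤ p := by
  have hp0 : (0 : ℝ) < p := Nat.cast_pos.2 (NeZero.pos p)
  have hrep : ∀ c : ZMod p → ℝ, ∃ y, (∃ y ∈ H, ∀ a, |y a - c a| ≤ ε) →
      (y ∈ H ∧ ∀ a, |y a - c a| ≤ ε) := by
    intro c
    by_cases h : ∃ y ∈ H, ∀ a, |y a - c a| ≤ ε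
    · obtain ⟨y, hy⟩ := h
      exact ⟨y, fun _ => hy⟩
    · exact ⟨0, fun h' => absurd h' h⟩
  choose rep hrep using hrep
  let T : Finset ((ZMod p → ℝ) × Finset (ZMod p)) :=
    (C.filter fun c => ∃ y ∈ H, ∀ a, |y a - c a| ≤ ε) ×ˢ (univ.filter fun S => p < 4 * S.card)
  let M : (ZMod p → ℝ) × Finset (ZMod p) → ZMod p → ZMod p × Bool → ℝ := fun j a i =>
    τ⁻¹ * prj j.2 (fun b => zmat (fun ω => trc τ (hat (rep j.1) ω)) b i) a
  have hT : ∀ j ∈ T, rep j.1 ∈ H ∧ p < 4 * j.2.card ∧ j.2.Nonempty := by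
    intro j hj
    simp only [T, mem_product, mem_filter, mem_univ, true_and] at hj
    exact ⟨(hrep _ hj.1.2).1, hj.2, card_pos.1 (by omega)⟩
  have hM : ∀ j x, ∑ a, (∑ i, M j a i * x i) ^ 2 =
      τ⁻¹ ^ 2 * ∑ a, prj j.2 (mulG τ (toMul x) (rep j.1)) a ^ 2 := by
    intro j x
    rw [mul_sum]
    refine sum_congr rfl fun a _ => ?_
    simp only [M, mul_assoc, ← mul_sum, prj_sum, zmat_sum, mul_pow]
    rfl
  have hcard : Fintype.card (ZMod p × Bool) = 2 * p := by simp [ZMod.card, mul_comm]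
  have hsq : √(1 / 1024 : ℝ) = 1 / 32 := by
    rw [show (1 / 1024 : ℝ) = (1 / 32) ^ 2 by norm_num, Real.sqrt_sq (by norm_num)]
  obtain ⟨x, hx1, hx2⟩ := exists_good_param_matrix T M (fun j hj x => by
    rw [hM]
    have h1 := (sum_prj_sq_le j.2 (hT j hj).2.2 (mulG τ (toMul x) (rep j.1))).trans
      (sum_re_syn_sq_le _)
    have h2 : ∑ ω, ‖toMul x ω * trc τ (hat (rep j.1) ω)‖ ^ 2 ≤ τ ^ 2 * ∑ i, x i ^ 2 := by
      rw [Fintype.sum_prod_type, mul_sum]
      refine sum_le_sum fun ω _ => ?_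
      rw [norm_mul, mul_pow, Fintype.sum_bool, add_comm, ← norm_toMul_sq, mul_comm]
      gcongr
      exact norm_trc_le hτ _
    calc τ⁻¹ ^ 2 * ∑ a, prj j.2 (mulG τ (toMul x) (rep j.1)) a ^ 2
        ≤ τ⁻¹ ^ 2 * (τ ^ 2 * ∑ i, x i ^ 2) := by gcongr; exact h1.trans h2
      _ = ∑ i, x i ^ 2 := by field_simp) (p / 256) (κ := 1 / 1024) (ρ := 4 * ε / τ)
    (by norm_num) (by positivity) (fun j hj => by
      obtain ⟨h1, h2, h3⟩ := hT j hj
      have h4 := zmat_HS (fun ω => trc τ (hat (rep j.1) ω)) (fun ω => norm_trc_le hτ _) j.2 h3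
      have h5 : τ ^ 2 * (univ.filter fun ω => τ ≤ ‖hat (rep j.1) ω‖).card ≤
          ∑ ω, ‖trc τ (hat (rep j.1) ω)‖ ^ 2 := by
        calc τ ^ 2 * (univ.filter fun ω => τ ≤ ‖hat (rep j.1) ω‖).card
            = ∑ ω ∈ univ.filter fun ω => τ ≤ ‖hat (rep j.1) ω‖,
              ‖trc τ (hat (rep j.1) ω)‖ ^ 2 := by
              rw [sum_congr rfl fun ω hω => by rw [norm_trc_eq hτ (mem_filter.1 hω).2]]
              simp [mul_comm]
          _ ≤ _ := sum_le_sum_of_subset_of_nonneg (subset_univ _) fun _ _ _ => sq_nonneg _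
      have h6 : (p : ℝ) ≤ 16 * (univ.filter fun ω => τ ≤ ‖hat (rep j.1) ω‖).card := by
        exact_mod_cast hH _ h1
      have h7 : (p : ℝ) ≤ 4 * j.2.card := by exact_mod_cast h2.le
      have h8 : ((p / 256 : ℕ) : ℝ) ≤ p / 256 := Nat.cast_div_le
      have h9 : (128 : ℝ) ≤ p := by exact_mod_cast hp
      have h10 : (1 : ℝ) / 4 ≤ j.2.card / p := by
        rw [div_le_div_iff₀ (by norm_num) hp0]; linarith
      have h11 : τ ^ 2 * (p / 16) ≤ ∑ ω, ‖trc τ (hat (rep j.1) ω)‖ ^ 2 :=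
        le_trans (by gcongr; linarith) h5
      have h12 : 1 / 4 * (τ ^ 2 * (p / 16)) ≤
          j.2.card / p * ∑ ω, ‖trc τ (hat (rep j.1) ω)‖ ^ 2 := by gcongr
      simp only [M, mul_pow, ← mul_sum, hcard]
      have h13 : τ ^ 2 * (p / 64 - 1) ≤ ∑ i, ∑ a,
          prj j.2 (fun b => zmat (fun ω => trc τ (hat (rep j.1) ω)) b i) a ^ 2 := by linarith
      calc ((p / 256 : ℕ) : ℝ) + 1 / 1024 * ((2 * p : ℕ) : ℝ) ≤ p / 64 - 1 := by
            push_cast; linarith
        _ = τ⁻¹ ^ 2 * (τ ^ 2 * (p / 64 - 1)) := by field_simp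
        _ ≤ _ := by gcongr) (by
      refine lt_of_le_of_lt ?_ hsmall
      rw [hcard, hsq, show 4 * ε / τ / (1 / 32) = 128 * ε / τ by field_simp; norm_num]
      gcongr
      have h1 : T.card ≤ C.card * 2 ^ p := by
        rw [card_product]
        refine Nat.mul_le_mul (card_filter_le _ _) ((card_filter_le _ _).trans ?_)
        simp [ZMod.card]
      exact_mod_cast h1)
  refine ⟨toMul x, fun y hy s => ?_⟩
  by_contra hcon
  push Not at hcon
  obtain ⟨c, hc, hyc⟩ := hC y hy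
  set S := univ.filter fun a => mulG τ (toMul x) y a = s with hS
  have hj : (c, S) ∈ T := by
    simp only [T, mem_product, mem_filter, mem_univ, true_and]
    exact ⟨⟨hc, y, hy, hyc⟩, hcon⟩
  have h1 := hx2 _ hj
  rw [hM, hcard] at h1
  have hSne := (hT _ hj).2.2
  have hc0 : (0 : ℝ) < S.card := Nat.cast_pos.2 (card_pos.2 hSne)
  have h2 : prj S (mulG τ (toMul x) (rep c)) =
      prj S (fun a => mulG τ (toMul x) (rep c) a - mulG τ (toMul x) y a) := by
    ext a
    simp only [prj]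
    split_ifs with ha
    · have e1 : ∑ b ∈ S, mulG τ (toMul x) y b = S.card * s := by
        rw [sum_congr rfl fun b (hb : b ∈ S) => (mem_filter.1 hb).2, sum_const, nsmul_eq_mul]
      rw [sum_sub_distrib, e1, (mem_filter.1 ha).2]
      field_simp
      ring
    · rfl
  have h3 : ∑ a, prj S (mulG τ (toMul x) (rep c)) a ^ 2 ≤ 32 * ε ^ 2 * p := by
    rw [h2]
    refine (sum_prj_sq_le S hSne _).trans ?_
    simp only [mulG, ← Complex.sub_re, syn_sub]
    refine (sum_re_syn_sq_le _).trans ?_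
    have h4 : ∀ ω, ‖toMul x ω * trc τ (hat (rep c) ω) - toMul x ω * trc τ (hat y ω)‖ ^ 2 ≤
        8 * ‖hat (fun a => rep c a - y a) ω‖ ^ 2 := by
      intro ω
      rw [← mul_sub, norm_mul, mul_pow, ← hat_sub]
      have h5 : ‖toMul x ω‖ ^ 2 ≤ 2 := by
        rw [norm_toMul_sq]
        have a1 := hx1 (ω, false)
        have a2 := hx1 (ω, true)
        rw [← sq_le_one_iff_abs_le_one] at a1 a2
        linarith
      have h6 := trc_lip hτ (hat (rep c) ω) (hat y ω)
      calc _ ≤ 2 * (2 * ‖hat (rep c) ω - hat y ω‖) ^ 2 := by gcongr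
        _ = _ := by ring
    refine (sum_le_sum fun ω _ => h4 ω).trans ?_
    rw [← mul_sum, parseval_hat]
    have h7 : ∀ a, (rep c a - y a) ^ 2 ≤ 4 * ε ^ 2 := by
      intro a
      have a1 := (hrep c ⟨y, hy, hyc⟩).2 a
      have a2 := hyc a
      rw [abs_le] at a1 a2
      nlinarith
    calc 8 * ∑ a, (rep c a - y a) ^ 2 ≤ 8 * ∑ _a : ZMod p, 4 * ε ^ 2 := by
          gcongr with a; exact h7 a
      _ = 32 * ε ^ 2 * p := by simp [ZMod.card]; ring
  have h8 : τ⁻¹ ^ 2 * ∑ a, prj S (mulG τ (toMul x) (rep c)) a ^ 2 ≤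
      τ⁻¹ ^ 2 * (32 * ε ^ 2 * p) := by gcongr
  have h9 : τ⁻¹ ^ 2 * (32 * ε ^ 2 * p) = (4 * ε / τ) ^ 2 * ((2 * p : ℕ) : ℝ) := by
    push_cast; field_simp; norm_num
  linarith

end Pool.Agent.MP_2d33ec_an

end MrgPart0

-- ======== part 1: formerly Pool.Agent.MP_2d33ec_an.Key
section MrgPart1

/-!
The finite-dimensional key estimate: an equivariant map with large oscillation, defined off a
set of small multiplicity, has an image that needs many small cubes to be covered.
-/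

namespace Pool.Agent.MP_2d33ec_an

open Finset

variable {p : ℕ}

theorem card_argmax_le_two [Fact p.Prime] {ω : ZMod p} (hω : ω ≠ 0) {u : ℂ} (hu : u ≠ 0) (s : ℝ) :
    (univ.filter fun a : ZMod p => (ch (a * ω) * u).re = s).card ≤ 2 := by
  have hinj : Function.Injective fun a : ZMod p => ch (a * ω) * u := by
    intro a b h
    exact mul_right_cancel₀ hω (ch_injective (mul_right_cancel₀ hu h))
  have key : ∀ a : ZMod p, (ch (a * ω) * u).re = s →
      (ch (a * ω) * u).im ^ 2 = ‖u‖ ^ 2 - s ^ 2 := by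
    intro a ha
    have h1 : ‖ch (a * ω) * u‖ ^ 2 = ‖u‖ ^ 2 := by rw [norm_mul, norm_ch, one_mul]
    rw [← Complex.normSq_eq_norm_sq, Complex.normSq_apply, ha] at h1
    linarith
  rw [← Fintype.card_bool, ← card_univ]
  refine card_le_card_of_injOn (fun a => decide (0 ≤ (ch (a * ω) * u).im))
    (fun _ _ => mem_univ _) ?_
  intro a ha b hb hab
  have ha' := (mem_filter.1 ha).2
  have hb' := (mem_filter.1 hb).2
  apply hinj
  refine Complex.ext (ha'.trans hb'.symm) ?_
  have h1 := (key a ha').trans (key b hb').symm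
  simp only [decide_eq_decide] at hab
  simp only
  rcases sq_eq_sq_iff_eq_or_eq_neg.1 h1 with h | h
  · exact h
  · by_cases h2 : 0 ≤ (ch (a * ω) * u).im
    · have := hab.1 h2
      linarith
    · have h3 := mt hab.2 h2
      push Not at h2 h3
      linarith

open Classical in
theorem key_estimate [Fact p.Prime] (hp : 128 ≤ p) {Δ ε : ℝ} (hΔ : 0 < Δ) (hε : 0 < ε)
    (E : Set (ZMod p → ℝ)) (hEc : IsClosed E) (hEs : ∀ w ∈ E, ∀ a, sh a w ∈ E)
    (y : (ZMod p → ℝ) → ZMod p → ℝ) (hy : ContinuousOn y E)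
    (hys : ∀ w ∈ E, ∀ a, y (sh a w) = sh a (y w))
    (hosc : ∀ w ∈ E, ∑ a, w a = 0 → ‖w‖ = 1 → ∃ a b, Δ ≤ |y w a - y w b|)
    (W : Set (ZMod p → ℝ)) (hWc : IsClosed W) (hW : ∀ w, w ∉ E → ∃ a, sh a w ∈ W)
    (hWn : ∀ w, 4 * (univ.filter fun a => sh a w ∈ W).card ≤ p)
    (C : Finset (ZMod p → ℝ)) (hC : ∀ w ∈ E, ∃ c ∈ C, ∀ a, |y w a - c a| ≤ ε) :
    1 ≤ C.card * 2 ^ p * (Real.exp 2 ^ (2 * p) * (2048 * ε / Δ) ^ (p / 256)) := by
  by_contra hsmall
  push Not at hsmall
  set τ := Δ / 16 with hτdef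
  have hτ : 0 < τ := by positivity
  have hp0 : (0 : ℝ) < p := by exact_mod_cast (by omega : 0 < p)
  let R4 : Set (ZMod p → ℝ) := {z | p ≤ 16 * (univ.filter fun ω => τ ≤ ‖hat z ω‖).card}
  obtain ⟨μ, hμ⟩ := exists_multiplier hp hτ hε (R4 ∩ y '' E) (fun z hz => hz.1) C
    (by rintro _ ⟨-, w, hw, rfl⟩; exact hC w hw)
    (by rwa [show 128 * ε / τ = 2048 * ε / Δ by rw [hτdef]; field_simp; norm_num])
  let L2 : Set (ZMod p → ℝ) := {z | (∀ ω, ω ≠ 0 → ‖hat z ω‖ ≤ 2 * τ) ∧ Δ / 2 ≤ |ctr z 0|}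
  let L3 : Set (ZMod p → ℝ) := {z | (univ.filter fun ω => τ < ‖hat z ω‖).card ≤ p / 16 ∧
    ∃ ω, ω ≠ 0 ∧ 2 * τ ≤ ‖hat z ω‖ ∧ ∀ b, (ch (b * ω) * hat z ω).re ≤ (hat z ω).re}
  let L4 : Set (ZMod p → ℝ) := R4 ∩ {z | ∀ b, mulG τ μ z b ≤ mulG τ μ z 0}
  have hL2 : IsClosed L2 := by
    have h1 : IsClosed {z : ZMod p → ℝ | ∀ ω, ω ≠ 0 → ‖hat z ω‖ ≤ 2 * τ} := by
      simp only [Set.ofPred_forall]
      exact isClosed_iInter fun ω => isClosed_iInter fun _ =>
        isClosed_le (continuous_hat ω).norm continuous_const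
    exact h1.inter (isClosed_le continuous_const ((continuous_apply 0).comp continuous_ctr).abs)
  have hL3 : IsClosed L3 := by
    have h0 : ∀ ω : ZMod p, IsClosed {z : ZMod p → ℝ |
        ∀ b, (ch (b * ω) * hat z ω).re ≤ (hat z ω).re} := by
      intro ω
      simp only [Set.ofPred_forall]
      exact isClosed_iInter fun b => isClosed_le
        (Complex.continuous_re.comp (continuous_const.mul (continuous_hat ω)))
        (Complex.continuous_re.comp (continuous_hat ω))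
    have h1 : IsClosed {z : ZMod p → ℝ | ∃ ω, ω ≠ 0 ∧ 2 * τ ≤ ‖hat z ω‖ ∧
        ∀ b, (ch (b * ω) * hat z ω).re ≤ (hat z ω).re} := by
      simp only [Set.ofPred_exists]
      exact isClosed_iUnion_of_finite fun ω => IsClosed.inter isClosed_const
        (IsClosed.inter (isClosed_le continuous_const (continuous_hat ω).norm) (h0 ω))
    exact IsClosed.inter (isClosed_card_le (fun ω z => τ < ‖hat z ω‖)
      (fun ω => isOpen_lt continuous_const (continuous_hat ω).norm) _) h1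
  have hL4 : IsClosed L4 := by
    refine IsClosed.inter ?_ ?_
    · have := isClosed_card_ge (fun ω (z : ZMod p → ℝ) => τ ≤ ‖hat z ω‖)
        (fun ω => isClosed_le continuous_const (continuous_hat ω).norm) ((p + 15) / 16)
      convert this using 1
      ext z
      simp only [R4, Set.mem_ofPred_eq]
      omega
    · simp only [Set.ofPred_forall]
      exact isClosed_iInter fun b => isClosed_le (continuous_mulG hτ μ b) (continuous_mulG hτ μ 0)
  have htot : ∀ z : ZMod p → ℝ, (∃ a b, Δ ≤ |z a - z b|) → ∃ a, sh a z ∈ L2 ∪ L3 ∪ L4 := by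
    rintro z ⟨a, b, hab⟩
    by_cases h1 : ∀ ω, ω ≠ 0 → ‖hat z ω‖ ≤ 2 * τ
    · obtain ⟨c, hc⟩ : ∃ c, Δ / 2 ≤ |ctr z c| := by
        by_contra hcon
        push Not at hcon
        have h2 := hcon a
        have h3 := hcon b
        have h4 : z a - z b = ctr z a - ctr z b := by simp [ctr]
        rw [h4] at hab
        have := abs_sub (ctr z a) (ctr z b)
        linarith
      refine ⟨c, Or.inl (Or.inl ⟨fun ω hω => ?_, ?_⟩)⟩
      · rw [norm_hat_sh]; exact h1 ω hω
      · rw [ctr_sh]; simpa [sh] using hc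
    · push Not at h1
      obtain ⟨ω, hω, hω2⟩ := h1
      by_cases h2 : (univ.filter fun ω => τ < ‖hat z ω‖).card ≤ p / 16
      · obtain ⟨c, -, hc⟩ := exists_max_image univ
          (fun c : ZMod p => (ch (c * ω) * hat z ω).re) univ_nonempty
        refine ⟨c, Or.inl (Or.inr ⟨by simpa only [norm_hat_sh] using h2, ω, hω,
          by rw [norm_hat_sh]; exact hω2.le, fun b => ?_⟩)⟩
        rw [hat_sh, ← mul_assoc, ← ch_add, ← add_mul]
        exact hc _ (mem_univ _)
      · obtain ⟨c, -, hc⟩ := exists_max_image univ (mulG τ μ z) univ_nonempty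
        refine ⟨c, Or.inr ⟨?_, fun b => ?_⟩⟩
        · simp only [R4, Set.mem_ofPred_eq, norm_hat_sh]
          have : (univ.filter fun ω => τ < ‖hat z ω‖).card ≤
              (univ.filter fun ω => τ ≤ ‖hat z ω‖).card :=
            card_le_card (monotone_filter_right _ fun ω _ h => h.le)
          omega
        · rw [mulG_sh, mulG_sh, zero_add]
          exact hc _ (mem_univ _)
  have hn2 : ∀ z : ZMod p → ℝ, 16 * (univ.filter fun a => sh a z ∈ L2).card ≤ p := by
    intro z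
    rcases (univ.filter fun a => sh a z ∈ L2).eq_empty_or_nonempty with h | ⟨a₀, ha₀⟩
    · rw [h]; simp
    · have h1 := energy_le z (τ := 2 * τ) fun ω hω => by
        have := (mem_filter.1 ha₀).2.1 ω hω
        rwa [norm_hat_sh] at this
      have h2 : ∑ _a ∈ univ.filter fun a => sh a z ∈ L2, (Δ / 2) ^ 2 ≤ ∑ a, ctr z a ^ 2 := by
        refine le_trans (sum_le_sum fun a ha => ?_)
          (sum_le_sum_of_subset_of_nonneg (subset_univ _) fun _ _ _ => sq_nonneg _)
        have := (mem_filter.1 ha).2.2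
        rw [ctr_sh] at this
        simp only [sh, zero_add] at this
        rw [← sq_abs (ctr z a)]
        gcongr
      rw [sum_const, nsmul_eq_mul] at h2
      have h3 : (16 * (univ.filter fun a => sh a z ∈ L2).card : ℝ) * (Δ / 8) ^ 2 ≤
          p * (Δ / 8) ^ 2 := by
        rw [hτdef] at h1
        nlinarith
      have h4 := le_of_mul_le_mul_right h3 (by positivity)
      exact_mod_cast h4
  have hn3 : ∀ z : ZMod p → ℝ, 8 * (univ.filter fun a => sh a z ∈ L3).card ≤ p := by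
    intro z
    rcases (univ.filter fun a => sh a z ∈ L3).eq_empty_or_nonempty with h | ⟨a₀, ha₀⟩
    · rw [h]; simp
    · have h1 := (mem_filter.1 ha₀).2.1
      simp only [norm_hat_sh] at h1
      have hmax : ∀ ω : ZMod p, ∃ s : ℝ, ∀ a : ZMod p,
          (∀ b : ZMod p, (ch (b * ω) * hat (sh a z) ω).re ≤ (hat (sh a z) ω).re) →
          (ch (a * ω) * hat z ω).re = s := by
        intro ω
        obtain ⟨c, -, hc⟩ := exists_max_image univ
          (fun c : ZMod p => (ch (c * ω) * hat z ω).re) univ_nonempty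
        refine ⟨(ch (c * ω) * hat z ω).re, fun a ha => le_antisymm (hc a (mem_univ _)) ?_⟩
        have := ha (c - a)
        rwa [hat_sh, ← mul_assoc, ← ch_add, ← add_mul, sub_add_cancel] at this
      choose s hs using hmax
      have h2 : (univ.filter fun a => sh a z ∈ L3) ⊆
          ((univ.filter fun ω => τ < ‖hat z ω‖).erase 0).biUnion fun ω =>
            univ.filter fun a : ZMod p => (ch (a * ω) * hat z ω).re = s ω := by
        intro a ha
        obtain ⟨-, ω, h3, h4, h5⟩ := (mem_filter.1 ha).2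
        rw [norm_hat_sh] at h4
        simp only [mem_biUnion, mem_erase, mem_filter, mem_univ, true_and]
        exact ⟨ω, ⟨h3, by linarith⟩, hs ω a h5⟩
      have h3 := (card_le_card h2).trans (card_biUnion_le_card_mul _ _ 2 fun ω hω => by
        simp only [mem_erase, mem_filter, mem_univ, true_and] at hω
        exact card_argmax_le_two hω.1 (norm_pos_iff.1 (hτ.trans hω.2)) _)
      have h4 := card_erase_le (s := univ.filter fun ω => τ < ‖hat z ω‖) (a := 0)
      omega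
  have hn4 : ∀ w ∈ E, 4 * (univ.filter fun a => sh a (y w) ∈ L4).card ≤ p := by
    intro w hw
    rcases (univ.filter fun a => sh a (y w) ∈ L4).eq_empty_or_nonempty with h | ⟨a₀, ha₀⟩
    · rw [h]; simp
    · have h1 := (mem_filter.1 ha₀).2
      have h2 : y w ∈ R4 := by
        have := h1.1
        simpa only [R4, Set.mem_ofPred_eq, norm_hat_sh] using this
      refine le_trans (Nat.mul_le_mul_left 4 (card_le_card ?_))
        (hμ (y w) ⟨h2, w, hw, rfl⟩ (mulG τ μ (y w) a₀))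
      intro a ha
      have h3 := (mem_filter.1 ha).2.2 (a₀ - a)
      have h4 := h1.2 (a - a₀)
      rw [mulG_sh, mulG_sh, zero_add, sub_add_cancel] at h3 h4
      simp only [mem_filter, mem_univ, true_and]
      exact le_antisymm h4 h3
  let K : Set (ZMod p → ℝ) := W ∪ (E ∩ y ⁻¹' (L2 ∪ L3 ∪ L4))
  have hKc : IsClosed K :=
    hWc.union (hy.preimage_isClosed_of_isClosed hEc ((hL2.union hL3).union hL4))
  obtain ⟨w, -, -, hw⟩ := cont_BU K hKc (by
    intro w h1 h2
    by_cases hw : w ∈ E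
    · obtain ⟨a, ha⟩ := htot (y w) (hosc w hw h1 h2)
      exact ⟨a, Or.inr ⟨hEs w hw a, by rw [Set.mem_preimage, hys w hw]; exact ha⟩⟩
    · obtain ⟨a, ha⟩ := hW w hw
      exact ⟨a, Or.inl ha⟩)
  replace hw : p - 1 ≤ (univ.filter fun a => sh a w ∈ K).card := by convert hw
  have h0 := hWn w
  by_cases hwE : w ∈ E
  · have h2 := hn2 (y w)
    have h3 := hn3 (y w)
    have h4 := hn4 w hwE
    have h5 : (univ.filter fun a => sh a w ∈ K) ⊆
        (univ.filter fun a => sh a w ∈ W) ∪ (univ.filter fun a => sh a (y w) ∈ L2) ∪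
          (univ.filter fun a => sh a (y w) ∈ L3) ∪ (univ.filter fun a => sh a (y w) ∈ L4) := by
      intro a ha
      simp only [mem_union, mem_filter, mem_univ, true_and] at ha ⊢
      rcases ha with ha | ⟨-, ha⟩
      · tauto
      · rw [Set.mem_preimage, hys w hwE] at ha
        rcases ha with (ha | ha) | ha <;> tauto
    have h6 := (card_le_card h5).trans ((card_union_le _ _).trans (Nat.add_le_add_right
      ((card_union_le _ _).trans (Nat.add_le_add_right (card_union_le _ _) _)) _))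
    omega
  · have h5 : (univ.filter fun a => sh a w ∈ K) ⊆ (univ.filter fun a => sh a w ∈ W) := by
      intro a ha
      simp only [mem_filter, mem_univ, true_and] at ha ⊢
      rcases ha with ha | ⟨ha, -⟩
      · exact ha
      · exfalso
        apply hwE
        have := hEs _ ha (-a)
        rwa [sh_sh, neg_add_cancel, sh_zero] at this
    have h6 := card_le_card h5
    omega

end Pool.Agent.MP_2d33ec_an

end MrgPart1

-- ======== part 2: formerly Pool.Agent.MP_2d33ec_an.System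
section MrgPart2

/-!
The subshift of `[0,1]^ℤ` in which, for every level `m` and every window of length `LL m`,
the `m`-th mixed-radix digit of the `i`-th entry equals `i` for at most `kk m` values of `i`.
-/

namespace Pool.Agent.MP_2d33ec_an

open Finset

def LL (m : ℕ) : ℕ := 2 ^ ((m + 3) ^ 2)

def kk (m : ℕ) : ℕ := 2 ^ (m ^ 2 + 5 * m + 9)

def bb (m : ℕ) : ℕ := ∏ j ∈ range m, LL j

theorem LL_pos (m : ℕ) : 0 < LL m := by unfold LL; positivity

theorem lt_LL (m : ℕ) : m < LL m :=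
  lt_of_le_of_lt (by nlinarith) (Nat.lt_two_pow_self (n := (m + 3) ^ 2))

theorem two_le_LL (m : ℕ) : 2 ≤ LL m := by
  calc 2 = 2 ^ 1 := rfl
    _ ≤ LL m := Nat.pow_le_pow_right (by norm_num) (Nat.one_le_pow _ _ (by omega))

theorem LL_mono {m n : ℕ} (h : m ≤ n) : LL m ≤ LL n :=
  Nat.pow_le_pow_right (by norm_num) (by nlinarith)

theorem lt_kk (m : ℕ) : m < kk m :=
  lt_of_le_of_lt (by nlinarith) (Nat.lt_two_pow_self (n := m ^ 2 + 5 * m + 9))

theorem kk_mul (m : ℕ) : kk m * 2 ^ m = LL m := by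
  unfold kk LL
  rw [← pow_add]
  congr 1
  ring

theorem kk_ge {M m : ℕ} (h : M < m) : 2 ^ m * 32 * LL M ≤ kk m := by
  obtain ⟨n, rfl⟩ : ∃ n, m = n + 1 := ⟨m - 1, by omega⟩
  have h1 : LL M ≤ LL n := LL_mono (by omega)
  have h2 : 2 ^ (n + 1) * 32 * LL n = kk (n + 1) := by
    unfold kk LL
    rw [show 32 = 2 ^ 5 by norm_num, ← pow_add, ← pow_add]
    congr 1
    ring
  rw [← h2]
  exact Nat.mul_le_mul_left _ h1

theorem bb_succ (m : ℕ) : bb (m + 1) = bb m * LL m := prod_range_succ _ _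

theorem bb_pos (m : ℕ) : 0 < bb m := prod_pos fun j _ => LL_pos j

theorem lt_bb (m : ℕ) : m < bb m := by
  induction m with
  | zero => simp [bb]
  | succ m ih =>
    rw [bb_succ]
    have := two_le_LL m
    nlinarith

theorem bb_dvd {m n : ℕ} (h : m ≤ n) : bb m ∣ bb n :=
  prod_dvd_prod_of_subset _ _ _ (range_mono h)

/-- `x` is not a grid point of level `m + 1` and its `m`-th digit is `i`. -/
def inU (m i : ℕ) (x : ℝ) : Prop :=
  ∃ j : ℕ, ((j * LL m + i : ℕ) : ℝ) < x * bb (m + 1) ∧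
    x * bb (m + 1) < ((j * LL m + i : ℕ) : ℝ) + 1

theorem isOpen_inU (m i : ℕ) : IsOpen {x | inU m i x} := by
  simp only [inU, Set.ofPred_exists]
  have hc : Continuous fun x : ℝ => x * bb (m + 1) := by fun_prop
  exact isOpen_iUnion fun j => (isOpen_lt continuous_const hc).inter
    (isOpen_lt hc continuous_const)

theorem not_inU_of_grid {m i : ℕ} {x : ℝ} {n : ℕ} (h : x * bb (m + 1) = n) : ¬ inU m i x := by
  rintro ⟨j, h1, h2⟩
  rw [h] at h1 h2
  have h3 : j * LL m + i < n := by exact_mod_cast h1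
  have h4 : n < j * LL m + i + 1 := by exact_mod_cast h2
  omega

theorem not_inU_zero (m i : ℕ) : ¬ inU m i 0 := not_inU_of_grid (n := 0) (by simp)

open Classical in
/-- Number of marked entries in the window of level `m` starting at `s`. -/
noncomputable def cnt (m : ℕ) (s : ℤ) (z : ℤ → ℝ) : ℕ :=
  ((range (LL m)).filter fun i : ℕ => inU m i (z (s + i))).card

/-- The subshift. -/
def XX : Set (ℤ → ℝ) := {z | (∀ n, 0 ≤ z n ∧ z n ≤ 1) ∧ ∀ m s, cnt m s z ≤ kk m}

theorem isClosed_card_ge' {X ι : Type*} [TopologicalSpace X] (s : Finset ι) (P : ι → X → Prop)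
    [∀ i x, Decidable (P i x)] (hP : ∀ i, IsClosed {x | P i x}) (k : ℕ) :
    IsClosed {x | k ≤ (s.filter fun i => P i x).card} := by
  have : {x | k ≤ (s.filter fun i => P i x).card} =
      ⋃ T ∈ s.powerset.filter fun T => k ≤ T.card, ⋂ i ∈ T, {x | P i x} := by
    ext x
    simp only [Set.mem_ofPred_eq, Set.mem_iUnion, Set.mem_iInter, exists_prop, mem_filter,
      mem_powerset]
    constructor
    · intro h
      exact ⟨_, ⟨filter_subset _ _, h⟩, fun i hi => (mem_filter.1 hi).2⟩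
    · rintro ⟨T, ⟨h0, h1⟩, h2⟩
      exact h1.trans (card_le_card fun i hi => mem_filter.2 ⟨h0 hi, h2 i hi⟩)
  rw [this]
  exact isClosed_biUnion_finset fun T _ => isClosed_biInter fun i _ => hP i

theorem isClosed_card_le' {X ι : Type*} [TopologicalSpace X] (s : Finset ι) (P : ι → X → Prop)
    [∀ i x, Decidable (P i x)] (hP : ∀ i, IsOpen {x | P i x}) (k : ℕ) :
    IsClosed {x | (s.filter fun i => P i x).card ≤ k} := by
  rw [← isOpen_compl_iff]
  have : {x | (s.filter fun i => P i x).card ≤ k}ᶜ =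
      ⋃ T ∈ s.powerset.filter fun T => k < T.card, ⋂ i ∈ T, {x | P i x} := by
    ext x
    simp only [Set.mem_compl_iff, Set.mem_ofPred_eq, not_le, Set.mem_iUnion, Set.mem_iInter,
      exists_prop, mem_filter, mem_powerset]
    constructor
    · intro h
      exact ⟨_, ⟨filter_subset _ _, h⟩, fun i hi => (mem_filter.1 hi).2⟩
    · rintro ⟨T, ⟨h0, h1⟩, h2⟩
      exact h1.trans_le (card_le_card fun i hi => mem_filter.2 ⟨h0 hi, h2 i hi⟩)
  rw [this]
  exact isOpen_biUnion fun T _ => isOpen_biInter_finset fun i _ => hP i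

theorem isClosed_XX : IsClosed XX := by
  classical
  have h1 : IsClosed {z : ℤ → ℝ | ∀ n, 0 ≤ z n ∧ z n ≤ 1} := by
    simp only [Set.ofPred_forall]
    exact isClosed_iInter fun n => (isClosed_le continuous_const (continuous_apply n)).inter
      (isClosed_le (continuous_apply n) continuous_const)
  have h2 : IsClosed {z : ℤ → ℝ | ∀ m s, cnt m s z ≤ kk m} := by
    simp only [Set.ofPred_forall]
    refine isClosed_iInter fun m => isClosed_iInter fun s => ?_
    exact isClosed_card_le' (range (LL m)) (fun (i : ℕ) (z : ℤ → ℝ) => inU m i (z (s + i)))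
      (fun i => (isOpen_inU m i).preimage (continuous_apply (A := fun _ : ℤ => ℝ) (s + i))) _
  exact h1.inter h2

theorem isCompact_XX : IsCompact XX := by
  refine (isCompact_univ_pi fun _ : ℤ => (isCompact_Icc : IsCompact (Set.Icc (0 : ℝ) 1))).of_isClosed_subset
    isClosed_XX fun z hz n _ => hz.1 n

/-- Shift by `a`. -/
def shZ (a : ℤ) (z : ℤ → ℝ) : ℤ → ℝ := fun n => z (n + a)

theorem cnt_shZ (m : ℕ) (s a : ℤ) (z : ℤ → ℝ) : cnt m s (shZ a z) = cnt m (s + a) z := by
  unfold cnt shZ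
  congr 1
  ext i
  simp only [mem_filter, add_right_comm s (i : ℤ) a]

theorem shZ_mem {z : ℤ → ℝ} (hz : z ∈ XX) (a : ℤ) : shZ a z ∈ XX :=
  ⟨fun _ => hz.1 _, fun m s => by rw [cnt_shZ]; exact hz.2 m _⟩

theorem cnt_mono {m : ℕ} {s : ℤ} {y x : ℤ → ℝ}
    (h : ∀ i < LL m, inU m i (y (s + i)) → inU m i (x (s + i))) : cnt m s y ≤ cnt m s x := by
  classical
  refine card_le_card fun i hi => ?_
  rw [mem_filter] at hi ⊢
  exact ⟨hi.1, h i (mem_range.1 hi.1) hi.2⟩

theorem cnt_le_card {m : ℕ} {s : ℤ} {y : ℤ → ℝ} (A : Finset ℤ)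
    (h : ∀ i n, inU m i (y n) → n ∈ A) : cnt m s y ≤ A.card := by
  classical
  refine card_le_card_of_injOn (fun i : ℕ => s + (i : ℤ))
    (fun i hi => h i _ (mem_filter.1 hi).2) ?_
  intro i _ j _ hij
  simpa using hij

theorem zero_mem_XX : (0 : ℤ → ℝ) ∈ XX :=
  ⟨fun _ => by simp, fun m s => (cnt_le_card ∅ fun i _ h => absurd h (not_inU_zero m i)).trans
    (Nat.zero_le _)⟩

theorem one_mem_XX : (fun _ => 1 : ℤ → ℝ) ∈ XX :=
  ⟨fun _ => by simp, fun m s => (cnt_le_card ∅ fun i _ h =>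
    absurd h (not_inU_of_grid (n := bb (m + 1)) (by simp))).trans (Nat.zero_le _)⟩

instance : CompactSpace XX := isCompact_iff_compactSpace.1 isCompact_XX

instance : TopologicalSpace.MetrizableSpace XX :=
  TopologicalSpace.metrizableSpace_of_t3_secondCountable _

instance : Nontrivial XX :=
  ⟨⟨0, zero_mem_XX⟩, ⟨_, one_mem_XX⟩, fun h => by
    have := congrFun (congrArg Subtype.val h) 0
    simp at this⟩

/-- The shift homeomorphism. -/
def TT : XX ≃ₜ XX where
  toFun z := ⟨shZ 1 z.1, shZ_mem z.2 1⟩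
  invFun z := ⟨shZ (-1) z.1, shZ_mem z.2 (-1)⟩
  left_inv z := by ext n; simp [shZ]
  right_inv z := by ext n; simp [shZ]
  continuous_toFun := by
    refine Continuous.subtype_mk (continuous_pi fun n => ?_) _
    exact (continuous_apply (n + 1)).comp continuous_subtype_val
  continuous_invFun := by
    refine Continuous.subtype_mk (continuous_pi fun n => ?_) _
    exact (continuous_apply (n + -1)).comp continuous_subtype_val

theorem TT_iterate (k : ℕ) (z : XX) : (TT^[k] z).1 = shZ k z.1 := by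
  induction k with
  | zero => ext n; simp [shZ]
  | succ k ih =>
    rw [Function.iterate_succ_apply']
    ext n
    show (TT^[k] z).1 (n + 1) = _
    rw [ih]
    simp [shZ, add_assoc, add_comm (1 : ℤ)]

/-- Uniform continuity in coordinates. -/
theorem exists_window {β : Type*} (U : β → Set XX) (hU : ∀ b, IsOpen (U b))
    (hcov : ∀ x, ∃ b, x ∈ U b) : ∃ (r : ℕ) (δ : ℝ), 0 < δ ∧ ∀ x : XX, ∃ b, ∀ y : XX,
      (∀ n : ℤ, |n| ≤ r → |y.1 n - x.1 n| ≤ δ) → y ∈ U b := by
  by_contra hcon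
  push Not at hcon
  have h1 : ∀ r : ℕ, ∃ x : XX, ∀ b, ∃ y : XX,
      (∀ n : ℤ, |n| ≤ r → |y.1 n - x.1 n| ≤ 1 / (r + 1)) ∧ y ∉ U b := fun r =>
    hcon r _ (by positivity)
  choose x hx using h1
  obtain ⟨x₀, φ, hφ, hlim⟩ := CompactSpace.tendsto_subseq x
  obtain ⟨b, hb⟩ := hcov x₀
  choose y hy1 hy2 using fun r => hx r b
  have h2 : Filter.Tendsto (fun r => y (φ r)) Filter.atTop (nhds x₀) := by
    rw [tendsto_subtype_rng, tendsto_pi_nhds] at hlim ⊢
    intro n
    have h3 : Filter.Tendsto (fun r => (y (φ r)).1 n - (x (φ r)).1 n) Filter.atTop (nhds 0) := by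
      refine squeeze_zero_norm' ?_
        (tendsto_one_div_add_atTop_nhds_zero_nat.comp hφ.tendsto_atTop)
      filter_upwards [Filter.eventually_ge_atTop n.natAbs] with r hr
      refine hy1 (φ r) n ?_
      have := hφ.id_le r
      simp only [id] at this
      rw [Int.abs_eq_natAbs]
      omega
    simpa using h3.add (hlim n)
  obtain ⟨r, hr⟩ := (h2.eventually ((hU b).mem_nhds hb)).exists
  exact hy2 _ hr

end Pool.Agent.MP_2d33ec_an

end MrgPart2

-- ======== part 3: formerly Pool.Agent.MP_2d33ec_an.MdimZero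
section MrgPart3

/-!
The subshift has mean dimension zero.
-/

namespace Pool.Agent.MP_2d33ec_an

open Finset

/-- Height function, positive exactly on the marked set. -/
noncomputable def hgt (m i : ℕ) (x : ℝ) : ℝ := Metric.infDist x {t | ¬ inU m i t}

theorem hgt_pos {m i : ℕ} {x : ℝ} (h : inU m i x) : 0 < hgt m i x :=
  ((isOpen_inU m i).isClosed_compl.notMem_iff_infDist_pos ⟨0, not_inU_zero m i⟩).1
    (not_not.2 h)

theorem hgt_zero {m i : ℕ} {x : ℝ} (h : ¬ inU m i x) : hgt m i x = 0 :=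
  Metric.infDist_zero_of_mem h

theorem continuous_hgt (m i : ℕ) : Continuous (hgt m i) := Metric.continuous_infDist_pt _

/-- The members of the economical cover. -/
def cell (m r N : ℕ) (S : Finset (Fin N)) (c : Fin N → ℕ) : Set XX :=
  {z | (∀ j ∈ S, ∀ j' ∉ S, hgt m (j'.val % LL m) (z.1 (j'.val - r)) <
        hgt m (j.val % LL m) (z.1 (j.val - r))) ∧
    (∀ j ∈ S, ((c j * LL m + j.val % LL m : ℕ) : ℝ) < z.1 (j.val - r) * bb (m + 1) ∧
      z.1 (j.val - r) * bb (m + 1) < ((c j * LL m + j.val % LL m : ℕ) : ℝ) + 1) ∧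
    (∀ j ∉ S, ((c j * LL m + j.val % LL m : ℕ) : ℝ) + 1 / 2 - LL m <
        z.1 (j.val - r) * bb (m + 1) ∧
      z.1 (j.val - r) * bb (m + 1) < ((c j * LL m + j.val % LL m : ℕ) : ℝ) + 1 / 2)}

theorem isOpen_cell (m r N : ℕ) (S : Finset (Fin N)) (c : Fin N → ℕ) :
    IsOpen (cell m r N S c) := by
  have hc : ∀ n : ℤ, Continuous fun z : XX => z.1 n := fun n =>
    (continuous_apply n).comp continuous_subtype_val
  have hc' : ∀ n : ℤ, Continuous fun z : XX => z.1 n * bb (m + 1) := fun n =>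
    (hc n).mul continuous_const
  simp only [cell, Set.ofPred_and, Set.ofPred_forall]
  refine IsOpen.inter ?_ (IsOpen.inter ?_ ?_)
  · exact isOpen_iInter_of_finite fun j => isOpen_iInter_of_finite fun _ =>
      isOpen_iInter_of_finite fun j' => isOpen_iInter_of_finite fun _ =>
        isOpen_lt ((continuous_hgt _ _).comp (hc _)) ((continuous_hgt _ _).comp (hc _))
  · exact isOpen_iInter_of_finite fun j => isOpen_iInter_of_finite fun _ =>
      (isOpen_lt continuous_const (hc' _)).inter (isOpen_lt (hc' _) continuous_const)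
  · exact isOpen_iInter_of_finite fun j => isOpen_iInter_of_finite fun _ =>
      (isOpen_lt continuous_const (hc' _)).inter (isOpen_lt (hc' _) continuous_const)

theorem exists_cell (m r N : ℕ) (z : XX) : ∃ (S : Finset (Fin N)) (c : Fin N → ℕ),
    (∀ j, c j < bb m + 1) ∧ z ∈ cell m r N S c := by
  classical
  have hL : (0 : ℝ) < LL m := by exact_mod_cast LL_pos m
  have key : ∀ j : Fin N, ∃ c : ℕ, c < bb m + 1 ∧
      (inU m (j.val % LL m) (z.1 (j.val - r)) →
        ((c * LL m + j.val % LL m : ℕ) : ℝ) < z.1 (j.val - r) * bb (m + 1) ∧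
        z.1 (j.val - r) * bb (m + 1) < ((c * LL m + j.val % LL m : ℕ) : ℝ) + 1) ∧
      (¬ inU m (j.val % LL m) (z.1 (j.val - r)) →
        ((c * LL m + j.val % LL m : ℕ) : ℝ) + 1 / 2 - LL m < z.1 (j.val - r) * bb (m + 1) ∧
        z.1 (j.val - r) * bb (m + 1) < ((c * LL m + j.val % LL m : ℕ) : ℝ) + 1 / 2) := by
    intro j
    obtain ⟨h0, h1⟩ := z.2.1 (j.val - r)
    have hi : j.val % LL m < LL m := Nat.mod_lt _ (LL_pos m)
    generalize j.val % LL m = i at hi ⊢
    generalize z.1 (j.val - r) = x at h0 h1 ⊢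
    have hi' : (i : ℝ) + 1 ≤ LL m := by exact_mod_cast hi
    have hi0 : (0 : ℝ) ≤ i := Nat.cast_nonneg i
    have hB : (bb (m + 1) : ℝ) = bb m * LL m := by exact_mod_cast bb_succ m
    have ht0 : 0 ≤ x * bb (m + 1) := by positivity
    have ht1 : x * bb (m + 1) ≤ bb m * LL m := by
      rw [← hB]; exact mul_le_of_le_one_left (Nat.cast_nonneg _) h1
    by_cases h : inU m i x
    · obtain ⟨c, hc1, hc2⟩ := h
      refine ⟨c, ?_, fun _ => ⟨hc1, hc2⟩, fun h' => absurd ⟨c, hc1, hc2⟩ h'⟩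
      have : (c : ℝ) * LL m < bb m * LL m := by
        push_cast at hc1; linarith
      have h2 : (c : ℝ) < bb m := lt_of_mul_lt_mul_right this hL.le
      have h3 : c < bb m := by exact_mod_cast h2
      omega
    · set u := (x * bb (m + 1) - i - 1 / 2) / LL m with hu
      have hu1 : u * LL m = x * bb (m + 1) - i - 1 / 2 := by rw [hu]; field_simp
      have hu2 : -1 < u := by
        rw [hu, lt_div_iff₀ hL]; linarith
      have hu3 : u ≤ bb m := by
        rw [hu, div_le_iff₀ hL]; linarith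
      have hc1 : u ≤ ⌈u⌉₊ := Nat.le_ceil u
      have hc2 : (⌈u⌉₊ : ℝ) < u + 1 := by
        rcases le_or_gt 0 u with h2 | h2
        · exact Nat.ceil_lt_add_one h2
        · rw [Nat.ceil_eq_zero.2 h2.le]; push_cast; linarith
      refine ⟨⌈u⌉₊, Nat.lt_succ_of_le (Nat.ceil_le.2 hu3), fun h' => absurd h' h, fun _ => ?_⟩
      have hc3 : u ≠ ⌈u⌉₊ := by
        intro he
        apply h
        refine ⟨⌈u⌉₊, ?_, ?_⟩ <;> push_cast <;> rw [← he] <;> linarith
      have hc4 := mul_lt_mul_of_pos_right (lt_of_le_of_ne hc1 hc3) hL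
      have hc5 := mul_lt_mul_of_pos_right hc2 hL
      push_cast
      constructor <;> nlinarith
  choose c hc using key
  refine ⟨univ.filter fun j => inU m (j.val % LL m) (z.1 (j.val - r)), c, fun j => (hc j).1,
    ?_, ?_, ?_⟩
  · intro j hj j' hj'
    simp only [mem_filter, mem_univ, true_and] at hj hj'
    rw [hgt_zero hj']
    exact hgt_pos hj
  · intro j hj
    exact (hc j).2.1 (mem_filter.1 hj).2
  · intro j hj
    simp only [mem_filter, mem_univ, true_and] at hj
    exact (hc j).2.2 hj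

theorem cell_unique {m r N : ℕ} {S S' : Finset (Fin N)} {c c' : Fin N → ℕ} {z : XX}
    (h : z ∈ cell m r N S c) (h' : z ∈ cell m r N S' c') (hc : S.card = S'.card) :
    S = S' ∧ c = c' := by
  have hS : S = S' := by
    by_contra hne
    have h1 : ¬ S ⊆ S' := fun hs => hne (eq_of_subset_of_card_le hs hc.ge)
    have h2 : ¬ S' ⊆ S := fun hs => hne (eq_of_subset_of_card_le hs hc.le).symm
    obtain ⟨j, hj1, hj2⟩ := not_subset.1 h1
    obtain ⟨j', hj1', hj2'⟩ := not_subset.1 h2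
    exact lt_asymm (h.1 j hj1 j' hj2') (h'.1 j' hj1' j hj2)
  subst hS
  refine ⟨rfl, funext fun j => ?_⟩
  have hL : (1 : ℝ) ≤ LL m := by exact_mod_cast LL_pos m
  have key : ∀ a b : ℕ, (a : ℝ) * LL m < b * LL m + LL m → a ≤ b := by
    intro a b hab
    have : (a : ℝ) < b + 1 := lt_of_mul_lt_mul_right (a := (LL m : ℝ)) (by linarith) (by linarith)
    have : a < b + 1 := by exact_mod_cast this
    omega
  by_cases hj : j ∈ S
  · have h1 := h.2.1 j hj
    have h2 := h'.2.1 j hj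
    push_cast at h1 h2
    exact le_antisymm (key _ _ (by linarith)) (key _ _ (by linarith))
  · have h1 := h.2.2 j hj
    have h2 := h'.2.2 j hj
    push_cast at h1 h2
    exact le_antisymm (key _ _ (by linarith)) (key _ _ (by linarith))

theorem cell_card {m r Q : ℕ} {S : Finset (Fin (Q * LL m))} {c : Fin (Q * LL m) → ℕ} {z : XX}
    (h : z ∈ cell m r _ S c) : S.card ≤ kk m * Q := by
  classical
  refine le_of_le_of_eq (card_le_mul_card_image_of_maps_to (t := range Q)
    (f := fun j => j.val / LL m) (fun j _ => ?_) _ fun q _ => ?_) (by rw [card_range])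
  · exact mem_range.2 (Nat.div_lt_of_lt_mul (j.2.trans_eq (mul_comm _ _)))
  · refine le_trans ?_ (z.2.2 m (q * LL m - r))
    refine card_le_card_of_injOn (fun j => j.val % LL m) (fun j hj => ?_) ?_
    · obtain ⟨hj1, hj2⟩ := mem_filter.1 hj
      refine mem_filter.2 ⟨mem_range.2 (Nat.mod_lt _ (LL_pos m)), ?_⟩
      have e : (q : ℤ) * LL m - r + (j.val % LL m : ℕ) = j.val - r := by
        have := Nat.div_add_mod' j.val (LL m)
        rw [hj2] at this
        have h2 : ((q * LL m + j.val % LL m : ℕ) : ℤ) = j.val := by rw [this]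
        push_cast at h2 ⊢
        linarith
      simp only [e]
      exact ⟨c j, h.2.1 j hj1⟩
    · intro j hj j' hj' he
      have h1 := (mem_filter.1 hj).2
      have h2 := (mem_filter.1 hj').2
      apply Fin.ext
      rw [← Nat.div_add_mod' j.val (LL m), ← Nat.div_add_mod' j'.val (LL m), h1, h2]
      simp only at he
      rw [he]

theorem cell_diam {m r N : ℕ} {S : Finset (Fin N)} {c : Fin N → ℕ} {y x : XX}
    (hy : y ∈ cell m r N S c) (hx : x ∈ cell m r N S c) (j : Fin N) :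
    |y.1 (j.val - r) - x.1 (j.val - r)| ≤ 1 / bb m := by
  have hL : (1 : ℝ) ≤ LL m := by exact_mod_cast LL_pos m
  have hb : (0 : ℝ) < bb m := by exact_mod_cast bb_pos m
  have hB : (bb (m + 1) : ℝ) = bb m * LL m := by exact_mod_cast bb_succ m
  have h1 : |y.1 (j.val - r) * bb (m + 1) - x.1 (j.val - r) * bb (m + 1)| ≤ LL m := by
    rw [abs_le]
    by_cases hj : j ∈ S
    · have h1 := hy.2.1 j hj
      have h2 := hx.2.1 j hj
      constructor <;> linarith
    · have h1 := hy.2.2 j hj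
      have h2 := hx.2.2 j hj
      constructor <;> linarith
  rw [← sub_mul, abs_mul, hB, abs_of_pos (a := (bb m : ℝ) * LL m) (by positivity),
    ← mul_assoc] at h1
  rw [le_div_iff₀ hb]
  exact le_of_mul_le_mul_right (a := (LL m : ℝ)) (by linarith) (by linarith)

theorem coverD_le (α : Finset (Set XX)) {r : ℕ} {δ : ℝ}
    (hr : ∀ x : XX, ∃ U ∈ α, ∀ y : XX, (∀ n : ℤ, |n| ≤ r → |y.1 n - x.1 n| ≤ δ) → y ∈ U)
    {m : ℕ} (hm : 1 / (bb m : ℝ) ≤ δ) (n : ℕ) :
    coverD (joinIter TT α n) ≤ kk m * ((n + 2 * r) / LL m + 1) := by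
  classical
  set Q := (n + 2 * r) / LL m + 1 with hQ
  have hN : n + 2 * r < Q * LL m := by
    rw [hQ, mul_comm _ (LL m)]; exact Nat.lt_mul_div_succ _ (LL_pos m)
  let I : Finset (Finset (Fin (Q * LL m)) × (Fin (Q * LL m) → ℕ)) :=
    univ ×ˢ Fintype.piFinset fun _ => range (bb m + 1)
  let β : Finset (Set XX) := I.image fun i => cell m r _ i.1 i.2
  have hβ : IsFinOpenCover β := by
    refine ⟨fun U hU => ?_, fun z => ?_⟩
    · obtain ⟨i, -, rfl⟩ := mem_image.1 hU
      exact isOpen_cell _ _ _ _ _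
    · obtain ⟨S, c, hc, hz⟩ := exists_cell m r (Q * LL m) z
      exact ⟨_, mem_image.2 ⟨(S, c), by simp [I, hc], rfl⟩, hz⟩
  have href : ∀ V ∈ β, ∃ U ∈ joinIter TT α n, V ⊆ U := by
    intro V hV
    obtain ⟨i, -, rfl⟩ := mem_image.1 hV
    obtain ⟨x, hx⟩ : ∃ x : XX, ∀ y ∈ cell m r _ i.1 i.2, x ∈ cell m r _ i.1 i.2 := by
      rcases (cell m r _ i.1 i.2).eq_empty_or_nonempty with h | ⟨x, hx⟩
      · exact ⟨⟨0, zero_mem_XX⟩, fun y hy => by rw [h] at hy; exact hy.elim⟩
      · exact ⟨x, fun _ _ => hx⟩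
    choose U hU1 hU2 using fun k : Fin n => hr (TT^[k] x)
    refine ⟨⋂ k : Fin n, TT^[k] ⁻¹' U k, mem_image.2 ⟨U, by simp [hU1], rfl⟩, fun y hy => ?_⟩
    refine Set.mem_iInter.2 fun k => hU2 k _ fun t ht => ?_
    rw [TT_iterate, TT_iterate]
    have hk := k.2
    rw [abs_le] at ht
    have := cell_diam hy (hx y hy) ⟨(t + k.val + r).toNat, by omega⟩
    have e : (((t + k.val + r).toNat : ℕ) : ℤ) - r = t + k.val := by omega
    simp only [e] at this
    exact this.trans hm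
  have hle : coverD (joinIter TT α n) ≤ ord β := Nat.sInf_le ⟨β, hβ, href, rfl⟩
  refine hle.trans ?_
  rw [ord, Nat.sub_le_iff_le_add]
  refine ciSup_le' fun z => ?_
  calc _ ≤ (I.filter fun i => z ∈ cell m r _ i.1 i.2).card := by
        simp only [β]
        rw [filter_image]
        convert card_image_le
    _ ≤ (range (kk m * Q + 1)).card := by
        refine card_le_card_of_injOn (fun i => i.1.card) (fun i hi => ?_) ?_
        · exact mem_range.2 (Nat.lt_succ_of_le (cell_card (mem_filter.1 hi).2))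
        · intro i hi i' hi' he
          obtain ⟨h1, h2⟩ := cell_unique (mem_filter.1 hi).2 (mem_filter.1 hi').2 he
          exact Prod.ext h1 h2
    _ = _ := card_range _

theorem mdim_TT : mdim TT = 0 := by
  refine le_antisymm (iSup₂_le fun α hα => ?_) zero_le
  obtain ⟨r, δ, hδ, hr⟩ := exists_window (fun U : α => (U : Set XX)) (fun U => hα.1 U U.2)
    (fun x => by obtain ⟨U, hU, hx⟩ := hα.2 x; exact ⟨⟨U, hU⟩, hx⟩)
  have hr' : ∀ x : XX, ∃ U ∈ α, ∀ y : XX,
      (∀ n : ℤ, |n| ≤ r → |y.1 n - x.1 n| ≤ δ) → y ∈ U := fun x => by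
    obtain ⟨U, hU⟩ := hr x; exact ⟨U, U.2, hU⟩
  refine le_of_forall_gt_imp_ge_of_dense fun ε hε => ?_
  obtain ⟨N, hN⟩ := ENNReal.exists_inv_nat_lt hε.ne'
  obtain ⟨m₀, hm₀⟩ := exists_nat_one_div_lt hδ
  set m := m₀ + 2 * N with hmdef
  have hm : 1 / (bb m : ℝ) ≤ δ := by
    refine le_trans ?_ hm₀.le
    have h1 : m₀ + 1 ≤ bb m := by have := lt_bb m; omega
    have h2 : (m₀ : ℝ) + 1 ≤ bb m := by exact_mod_cast h1
    gcongr
  refine Filter.limsup_le_of_le (by isBoundedDefault) ?_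
  filter_upwards [Filter.eventually_ge_atTop (2 * r + LL m)] with n hn
  refine le_trans ?_ hN.le
  have h1 := coverD_le α hr' hm n
  have h2 : coverD (joinIter TT α n) * N ≤ n := by
    have h3 : ((n + 2 * r) / LL m + 1) * LL m ≤ 2 * n := by
      have := Nat.div_mul_le_self (n + 2 * r) (LL m)
      nlinarith
    have h4 : 2 * N ≤ 2 ^ m := by
      have := Nat.lt_two_pow_self (n := m)
      omega
    rw [← kk_mul] at h3
    have h5 : kk m * ((n + 2 * r) / LL m + 1) * (2 * N) ≤ 2 * n := by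
      refine le_trans (Nat.mul_le_mul_left _ h4) (le_trans (le_of_eq ?_) h3)
      rw [kk_mul]
      nth_rewrite 3 [← kk_mul]
      ring
    nlinarith
  rw [ENNReal.le_inv_iff_mul_le, ENNReal.div_eq_inv_mul, mul_assoc, ← ENNReal.div_eq_inv_mul]
  refine ENNReal.div_le_of_le_mul ?_
  rw [one_mul]
  exact_mod_cast h2

end Pool.Agent.MP_2d33ec_an

end MrgPart3

-- marker of a merged file
example : 731051 + 220245 = 731051 + 220245 := rfl
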