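import Mathlib.Algebra.Order.Floor.Extended
import Mathlib.Combinatorics.Enumerative.DoubleCounting
import Mathlib.Dynamics.TopologicalEntropy.CoverEntropy
import Pool.Agent.MP_2d33ec_an.MdimZero

-- ======== part 0: formerly Pool.Agent.MP_2d33ec_an.Family
section MrgPart0

/-!
The equivariant family of periodic sequences built from a one-coordinate segment.
-/

namespace Pool.Agent.MP_2d33ec_an

open Finset

/-- Closed version of the marked set. -/
def inV (m i : ℕ) (x : ℝ) : Prop :=
  ∃ j ∈ range (bb m + 1), ((j * LL m + i : ℕ) : ℝ) ≤ x * bb (m + 1) ∧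
    x * bb (m + 1) ≤ ((j * LL m + i : ℕ) : ℝ) + 1

theorem isClosed_inV (m i : ℕ) : IsClosed {x | inV m i x} := by
  have hc : Continuous fun x : ℝ => x * bb (m + 1) := by fun_prop
  have : {x | inV m i x} = ⋃ j ∈ range (bb m + 1),
      {x : ℝ | ((j * LL m + i : ℕ) : ℝ) ≤ x * bb (m + 1)} ∩
        {x : ℝ | x * bb (m + 1) ≤ ((j * LL m + i : ℕ) : ℝ) + 1} := by
    ext x
    simp only [inV, Set.mem_ofPred_eq, Set.mem_iUnion, Set.mem_inter_iff, exists_prop]
  rw [this]
  exact isClosed_biUnion_finset fun j _ => (isClosed_le continuous_const hc).inter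
    (isClosed_le hc continuous_const)

theorem inV_of_inU {m i : ℕ} {x : ℝ} (hx : x ≤ 1) (h : inU m i x) : inV m i x := by
  obtain ⟨j, h1, h2⟩ := h
  refine ⟨j, ?_, h1.le, h2.le⟩
  have hL : (0 : ℝ) < LL m := by exact_mod_cast LL_pos m
  have hB : (bb (m + 1) : ℝ) = bb m * LL m := by exact_mod_cast bb_succ m
  have ht1 : x * bb (m + 1) ≤ bb m * LL m := by
    rw [← hB]; exact mul_le_of_le_one_left (Nat.cast_nonneg _) hx
  have hi0 : (0 : ℝ) ≤ i := Nat.cast_nonneg i
  have : (j : ℝ) * LL m < bb m * LL m := by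
    push_cast at h1; linarith
  have h2 : (j : ℝ) < bb m := lt_of_mul_lt_mul_right this hL.le
  have h3 : j < bb m := by exact_mod_cast h2
  exact mem_range.2 (by omega)

open Classical in
theorem card_inV_le (m : ℕ) (x : ℝ) : ((range (LL m)).filter fun i => inV m i x).card ≤ 2 := by
  have : ((range (LL m)).filter fun i => inV m i x) ⊆
      ({⌊x * bb (m + 1)⌋₊, ⌊x * bb (m + 1)⌋₊ - 1} : Finset ℕ).image (· % LL m) := by
    intro i hi
    obtain ⟨hi1, j, -, h1, h2⟩ := mem_filter.1 hi
    refine mem_image.2 ⟨j * LL m + i, ?_, ?_⟩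
    · have h3 : j * LL m + i ≤ ⌊x * bb (m + 1)⌋₊ := Nat.le_floor h1
      have h4 : ⌊x * bb (m + 1)⌋₊ ≤ j * LL m + i + 1 :=
        Nat.floor_le_of_le (by push_cast at h2 ⊢; linarith)
      simp only [mem_insert, mem_singleton]
      omega
    · rw [Nat.mul_add_mod', Nat.mod_eq_of_lt (mem_range.1 hi1)]
  exact (card_le_card this).trans (card_image_le.trans card_le_two)

open Classical in
/-- Closed version of the window count. -/
noncomputable def cntV (m : ℕ) (s : ℤ) (z : ℤ → ℝ) : ℕ :=
  ((range (LL m)).filter fun i : ℕ => inV m i (z (s + i))).card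

theorem cnt_le_cntV (m : ℕ) (s : ℤ) {z : ℤ → ℝ} (hz : ∀ n, z n ≤ 1) : cnt m s z ≤ cntV m s z := by
  classical
  refine card_le_card fun i hi => ?_
  rw [mem_filter] at hi ⊢
  exact ⟨hi.1, inV_of_inU (hz _) hi.2⟩

theorem cntV_shZ (m : ℕ) (s a : ℤ) (z : ℤ → ℝ) : cntV m s (shZ a z) = cntV m (s + a) z := by
  unfold cntV shZ
  congr 1
  ext i
  simp only [mem_filter, add_right_comm s (i : ℤ) a]

theorem sum_cntV_le (m P : ℕ) {z : ℤ → ℝ} (hz : ∀ n, z (n + P) = z n) :
    ∑ s ∈ range P, cntV m s z ≤ 2 * P := by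
  classical
  have h1 : ∀ i : ℕ, ((range P).filter fun s : ℕ => inV m i (z (s + i))).card =
      ((range P).filter fun n : ℕ => inV m i (z n)).card := by
    intro i
    have hper : Function.Periodic (fun n : ℕ => inV m i (z n)) P := by
      intro n
      simp only [Nat.cast_add, hz]
    have e1 := Nat.filter_Ico_card_eq_of_periodic i P _ hper
    have e2 := Nat.filter_Ico_card_eq_of_periodic 0 P _ hper
    rw [zero_add, ← range_eq_Ico] at e2
    rw [e2, ← e1]
    refine card_nbij' (fun s => s + i) (fun n => n - i) ?_ ?_ ?_ ?_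
    · intro s hs
      simp only [coe_filter, mem_range, Set.mem_ofPred_eq, mem_Ico] at hs ⊢
      exact ⟨by omega, by push_cast; exact hs.2⟩
    · intro n hn
      simp only [coe_filter, mem_range, Set.mem_ofPred_eq, mem_Ico] at hn ⊢
      refine ⟨by omega, ?_⟩
      rw [Nat.cast_sub hn.1.1, sub_add_cancel]
      exact hn.2
    · intro s _; simp
    · intro n hn
      simp only [coe_filter, Set.mem_ofPred_eq, mem_Ico] at hn
      simp only
      omega
  simp only [cntV, card_filter] at h1 ⊢
  rw [sum_comm]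
  simp only [h1]
  rw [sum_comm]
  simp only [← card_filter]
  calc _ ≤ ∑ _n ∈ range P, 2 := sum_le_sum fun n _ => card_inV_le m _
    _ = 2 * P := by simp [mul_comm]

variable {p : ℕ}

/-- The value placed in the block with index `a`. -/
noncomputable def val (u v : ℝ) (w : ZMod p → ℝ) (a : ZMod p) : ℝ :=
  u + max 0 (min 1 (p * w a)) * (v - u)

theorem val_mem {u v : ℝ} (huv : u ≤ v) (w : ZMod p → ℝ) (a : ZMod p) :
    u ≤ val u v w a ∧ val u v w a ≤ v := by
  have h0 : 0 ≤ max 0 (min 1 (p * w a)) := le_max_left _ _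
  have h1 : max 0 (min 1 (p * w a)) ≤ 1 := max_le zero_le_one (min_le_left _ _)
  unfold val
  constructor <;> nlinarith

/-- The periodic sequence with blocks of length `R`. -/
noncomputable def zz (r R : ℕ) (x : ℤ → ℝ) (j : ℤ) (u v : ℝ) (w : ZMod p → ℝ) : ℤ → ℝ :=
  fun n => Function.update x j (val u v w (((n + r) / R : ℤ) : ZMod p)) ((n + r) % R - r)

theorem shZ_zz {r R : ℕ} (hR : 0 < R) (x : ℤ → ℝ) (j : ℤ) (u v : ℝ) (w : ZMod p → ℝ) (c : ℤ) :
    shZ (c * R) (zz r R x j u v w) = zz r R x j u v (sh (c : ZMod p) w) := by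
  ext n
  have hR' : (R : ℤ) ≠ 0 := by omega
  simp only [shZ, zz]
  rw [show n + c * R + r = n + r + c * R by ring, Int.add_mul_ediv_right _ _ hR',
    Int.add_mul_emod_self_right]
  simp [val, sh]

theorem continuous_zz (r R : ℕ) (x : ℤ → ℝ) (j : ℤ) (u v : ℝ) :
    Continuous (zz r R x j u v : (ZMod p → ℝ) → ℤ → ℝ) := by
  refine continuous_pi fun n => ?_
  unfold zz
  have : Continuous fun w : ZMod p → ℝ =>
      Function.update x j (val u v w (((n + r) / R : ℤ) : ZMod p)) := by
    refine continuous_const.update _ ?_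
    unfold val
    fun_prop
  exact (continuous_apply ((n + r) % R - r)).comp this

theorem zz_near {r R : ℕ} {x : ℤ → ℝ} {j : ℤ} (hsupp : ∀ n, (r : ℤ) < |n| → x n = 0)
    (hj : |j| ≤ r) (u v : ℝ) (w : ZMod p → ℝ) {n : ℤ} (h1 : (r : ℤ) - R < n)
    (h2 : n < R - r) : zz r R x j u v w n = Function.update x j (val u v w 0) n := by
  rw [abs_le] at hj
  have hR : (0 : ℤ) < R := by omega
  unfold zz
  rcases le_or_gt (-(r : ℤ)) n with h | h
  · rw [Int.ediv_eq_zero_of_lt (by omega) (by omega), Int.emod_eq_of_lt (by omega) (by omega)]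
    simp
  · have e : (n + r) % R = n + r + R := by
      rw [← Int.add_emod_right (n + r) R, Int.emod_eq_of_lt (by omega) (by omega)]
    rw [e, Function.update_of_ne (by omega), Function.update_of_ne (by omega),
      hsupp _ (lt_abs.2 (Or.inl (by omega))), hsupp _ (lt_abs.2 (Or.inr (by omega)))]

open Classical in
theorem family_estimate [Fact p.Prime] (hp : 128 ≤ p) {r M : ℕ} (hrM : 2 * r + 1 ≤ LL M)
    {x : ℤ → ℝ} {j : ℤ} {u v : ℝ} (hsupp : ∀ n, (r : ℤ) < |n| → x n = 0) (hj : |j| ≤ r)
    (huv : u ≤ v) (hseg : ∀ t, u ≤ t → t ≤ v → Function.update x j t ∈ XX)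
    {F : (ℤ → ℝ) → ℝ} (hF : ContinuousOn F XX) {Δ ε : ℝ} (hΔ : 0 < Δ) (hε : 0 < ε)
    (hΔF : 2 * Δ ≤ |F (Function.update x j u) - F (Function.update x j v)|)
    (hwin : ∀ z ∈ XX, ∀ z' ∈ XX, (∀ n : ℤ, |n| ≤ r → z n = z' n) → |F z - F z'| ≤ Δ / 2)
    (C : Finset (ZMod p → ℝ))
    (hC : ∀ z ∈ XX, ∃ c ∈ C, ∀ a : ZMod p, |F (shZ (a.val * (2 * LL M : ℕ)) z) - c a| ≤ ε) :
    1 ≤ C.card * 2 ^ p * (Real.exp 2 ^ (2 * p) * (2048 * ε / Δ) ^ (p / 256)) := by
  set R := 2 * LL M with hRdef
  have hR : 0 < R := by have := LL_pos M; omega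
  let Z : (ZMod p → ℝ) → ℤ → ℝ := zz r R x j u v
  have hZsh : ∀ (w : ZMod p → ℝ) (c : ℤ), shZ (c * R) (Z w) = Z (sh (c : ZMod p) w) :=
    fun w c => shZ_zz hR x j u v w c
  have hZsh' : ∀ (w : ZMod p → ℝ) (a : ZMod p), Z (sh a w) = shZ (a.val * R) (Z w) := by
    intro w a
    rw [hZsh]
    simp
  have hZ01 : ∀ w n, 0 ≤ Z w n ∧ Z w n ≤ 1 := fun w n =>
    (hseg _ (val_mem huv w _).1 (val_mem huv w _).2).1 _
  have hZper : ∀ w n, Z w (n + (p * R : ℕ)) = Z w n := by
    intro w n
    have := congrFun (hZsh w p) n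
    simpa [shZ] using this
  have hlow : ∀ w m s, m ≤ M → cnt m s (Z w) ≤ kk m := by
    intro w m s hm
    have hL := LL_mono hm
    have hL0 := LL_pos m
    set c := (s + LL m - 1 + r) / R with hc
    have h1 := Int.emod_nonneg (s + LL m - 1 + r) (show (R : ℤ) ≠ 0 by omega)
    have h2 := Int.emod_lt_of_pos (s + LL m - 1 + r) (show (0 : ℤ) < R by omega)
    have h3 := Int.emod_add_ediv_mul (s + LL m - 1 + r) R
    rw [← hc] at h3
    have e : cnt m s (Z w) = cnt m (s - c * R) (Z (sh (c : ZMod p) w)) := by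
      rw [← hZsh, cnt_shZ, sub_add_cancel]
    rw [e]
    refine le_trans (cnt_mono fun i hi h => ?_)
      ((hseg _ (val_mem huv (sh (c : ZMod p) w) 0).1 (val_mem huv _ 0).2).2 m (s - c * R))
    rwa [← zz_near (R := R) hsupp hj u v _ (by omega) (by omega)]
  let E : Set (ZMod p → ℝ) := Z ⁻¹' XX
  have hZc : Continuous Z := continuous_zz r R x j u v
  have hEs : ∀ w ∈ E, ∀ a, sh a w ∈ E := by
    intro w hw a
    simp only [E, Set.mem_preimage, hZsh']
    exact shZ_mem hw _
  let W : Set (ZMod p → ℝ) :=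
    ⋃ m ∈ Ioo M (2 * (p * R)), ⋃ s ∈ range R, {w | kk m + 1 ≤ cntV m s (Z w)}
  have hWmem : ∀ w, w ∈ W ↔ ∃ m ∈ Ioo M (2 * (p * R)), ∃ s ∈ range R,
      kk m + 1 ≤ cntV m s (Z w) := by
    intro w
    simp only [W, Set.mem_iUnion, Set.mem_ofPred_eq, exists_prop]
  have hp0 : 0 < p := by omega
  refine key_estimate hp hΔ hε E (isClosed_XX.preimage hZc) hEs
    (fun w a => F (Z (sh a w))) ?_ ?_ ?_ W ?_ ?_ ?_ C ?_
  · refine continuousOn_pi.2 fun a => ?_
    exact hF.comp (hZc.comp (continuous_sh a)).continuousOn fun w hw => hEs w hw a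
  · intro w _ a
    ext b
    simp only [sh_sh]
    rfl
  · intro w hw hsum hnorm
    have hp1 : (0 : ℝ) < p := by exact_mod_cast hp0
    obtain ⟨b, hb⟩ : ∃ b, w b ≤ 0 := by
      by_contra hcon
      push Not at hcon
      have := sum_pos (fun b (_ : b ∈ univ) => hcon b) univ_nonempty
      linarith
    obtain ⟨a, ha⟩ : ∃ a, 1 ≤ p * w a := by
      by_contra hcon
      push Not at hcon
      obtain ⟨c, hc⟩ : ∃ c, 1 ≤ |w c| := by
        by_contra h
        push Not at h
        have := (pi_norm_lt_iff (x := w) zero_lt_one).2 fun c => by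
          rw [Real.norm_eq_abs]; exact h c
        linarith
      have hp2 : (128 : ℝ) ≤ p := by exact_mod_cast hp
      have hc' : w c ≤ -1 := by
        rcases le_abs.1 hc with h | h
        · have := hcon c
          nlinarith
        · linarith
      have h1 : ∑ a, (p * w a) < ∑ a, (1 - if a = c then (p : ℝ) else 0) := by
        refine sum_lt_sum_of_nonempty univ_nonempty fun a _ => ?_
        split_ifs with h
        · rw [h]; nlinarith
        · simpa using hcon a
      rw [← mul_sum, hsum, sum_sub_distrib] at h1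
      simp [ZMod.card] at h1
    have hnear : ∀ c : ZMod p,
        |F (Z (sh c w)) - F (Function.update x j (val u v w c))| ≤ Δ / 2 := by
      intro c
      refine hwin _ (hEs w hw c) _ (hseg _ (val_mem huv w c).1 (val_mem huv w c).2) fun n hn => ?_
      rw [abs_le] at hn
      have := zz_near (R := R) hsupp hj u v (sh c w) (n := n) (by omega) (by omega)
      simpa [val, sh] using this
    have hva : val u v w a = v := by simp [val, ha]
    have hvb : val u v w b = u := by
      have : p * w b ≤ 0 := mul_nonpos_of_nonneg_of_nonpos hp1.le hb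
      simp [val, this]
    have h1 := hnear a
    have h2 := hnear b
    rw [hva] at h1
    rw [hvb] at h2
    refine ⟨a, b, ?_⟩
    rw [abs_le] at h1 h2
    rcases le_abs.1 hΔF with h | h
    · exact le_abs.2 (Or.inr (by linarith))
    · exact le_abs.2 (Or.inl (by linarith))
  · refine isClosed_biUnion_finset fun m _ => isClosed_biUnion_finset fun s _ => ?_
    exact isClosed_card_ge' (range (LL m)) (fun (i : ℕ) (w : ZMod p → ℝ) => inV m i (Z w (s + i)))
      (fun i => (isClosed_inV m i).preimage ((continuous_apply ((s : ℤ) + i)).comp hZc)) _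
  · intro w hw
    obtain ⟨m, s, hms⟩ : ∃ m s, kk m < cnt m s (Z w) := by
      by_contra hcon
      push Not at hcon
      exact hw ⟨hZ01 w, hcon⟩
    have hm : M < m := by
      by_contra hcon
      exact absurd (hlow w m s (not_lt.1 hcon)) (not_le.2 hms)
    have h1 := Int.emod_nonneg s (show (R : ℤ) ≠ 0 by omega)
    have h2 := Int.emod_lt_of_pos s (show (0 : ℤ) < R by omega)
    have h3 := Int.emod_add_ediv_mul s R
    obtain ⟨s', hs'⟩ := Int.eq_ofNat_of_zero_le h1
    have e : cnt m s (Z w) = cnt m s' (Z (sh ((s / R : ℤ) : ZMod p) w)) := by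
      rw [← hZsh, cnt_shZ, ← hs', h3]
    have h4 : kk m + 1 ≤ cntV m s' (Z (sh ((s / R : ℤ) : ZMod p) w)) :=
      (Nat.succ_le_of_lt (e ▸ hms)).trans (cnt_le_cntV m _ fun n => (hZ01 _ n).2)
    refine ⟨_, (hWmem _).2 ⟨m, mem_Ioo.2 ⟨hm, ?_⟩, s', mem_range.2 (by omega), h4⟩⟩
    have h5 := sum_cntV_le m (p * R) (hZper (sh ((s / R : ℤ) : ZMod p) w))
    have h6 : cntV m s' (Z (sh ((s / R : ℤ) : ZMod p) w)) ≤
        ∑ t ∈ range (p * R), cntV m t (Z (sh ((s / R : ℤ) : ZMod p) w)) :=
      single_le_sum (f := fun t : ℕ => cntV m t (Z (sh ((s / R : ℤ) : ZMod p) w)))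
        (fun _ _ => Nat.zero_le _) (mem_range.2 (show s' < p * R by
          have : s' < R := by omega
          nlinarith))
    have h7 := lt_kk m
    omega
  · intro w
    let N : ℕ → ℕ := fun m =>
      (univ.filter fun a : ZMod p => ∃ s ∈ range R, kk m + 1 ≤ cntV m s (Z (sh a w))).card
    have h1 : (univ.filter fun a => sh a w ∈ W).card ≤ ∑ m ∈ Ioo M (2 * (p * R)), N m := by
      refine le_trans (card_le_card fun a ha => ?_) card_biUnion_le
      obtain ⟨m, hm, h⟩ := (hWmem _).1 (mem_filter.1 ha).2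
      exact mem_biUnion.2 ⟨m, hm, mem_filter.2 ⟨mem_univ _, h⟩⟩
    have h2 : ∀ m, N m * kk m ≤ 2 * (p * R) := by
      intro m
      refine le_trans ?_ (sum_cntV_le m (p * R) (hZper w))
      have h3 : N m ≤ ((range (p * R)).filter fun s : ℕ => kk m + 1 ≤ cntV m s (Z w)).card := by
        refine card_le_card_of_forall_subsingleton (fun (a : ZMod p) (s : ℕ) => s / R = a.val)
          ?_ ?_
        · intro a ha
          obtain ⟨s, hs, h⟩ := (mem_filter.1 ha).2
          have hs' := mem_range.1 hs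
          have hav := ZMod.val_lt a
          refine ⟨s + a.val * R, mem_filter.2 ⟨mem_range.2 (by nlinarith), ?_⟩, ?_⟩
          · rw [hZsh', cntV_shZ] at h
            exact_mod_cast h
          · rw [Nat.add_mul_div_right _ _ hR, Nat.div_eq_of_lt hs', zero_add]
        · intro s _ a ha b hb
          exact ZMod.val_injective p (ha.2.symm.trans hb.2)
      calc N m * kk m
          ≤ ((range (p * R)).filter fun s : ℕ => kk m + 1 ≤ cntV m s (Z w)).card * kk m :=
            Nat.mul_le_mul_right _ h3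
        _ = ∑ _s ∈ (range (p * R)).filter fun s : ℕ => kk m + 1 ≤ cntV m s (Z w), kk m := by
            simp
        _ ≤ ∑ s ∈ (range (p * R)).filter fun s : ℕ => kk m + 1 ≤ cntV m s (Z w),
              cntV m s (Z w) := sum_le_sum fun s hs => by have := (mem_filter.1 hs).2; omega
        _ ≤ _ := sum_le_sum_of_subset (filter_subset _ _)
    have h3 : ∀ m ∈ Ioo M (2 * (p * R)), (N m : ℝ) ≤ p / 8 * (1 / 2) ^ m := by
      intro m hm
      have h4 := kk_ge (mem_Ioo.1 hm).1
      have h5 : N m * (2 ^ m * 8) * (4 * LL M) ≤ p * (4 * LL M) := by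
        calc N m * (2 ^ m * 8) * (4 * LL M) = N m * (2 ^ m * 32 * LL M) := by ring
          _ ≤ N m * kk m := Nat.mul_le_mul_left _ h4
          _ ≤ 2 * (p * R) := h2 m
          _ = p * (4 * LL M) := by rw [hRdef]; ring
      have h6 := Nat.le_of_mul_le_mul_right h5 (by have := LL_pos M; omega)
      have h7 : (N m : ℝ) * (2 ^ m * 8) ≤ p := by exact_mod_cast h6
      rw [one_div, inv_pow, ← div_eq_mul_inv, div_div, le_div_iff₀ (by positivity)]
      linarith
    have h4 : ((univ.filter fun a => sh a w ∈ W).card : ℝ) ≤ p / 8 * 2 := by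
      calc ((univ.filter fun a => sh a w ∈ W).card : ℝ)
          ≤ ∑ m ∈ Ioo M (2 * (p * R)), (N m : ℝ) := by exact_mod_cast h1
        _ ≤ ∑ m ∈ Ioo M (2 * (p * R)), (p / 8 * (1 / 2) ^ m : ℝ) := sum_le_sum h3
        _ ≤ ∑ m ∈ range (2 * (p * R)), (p / 8 * (1 / 2) ^ m : ℝ) :=
            sum_le_sum_of_subset_of_nonneg (fun m hm => mem_range.2 (mem_Ioo.1 hm).2)
              fun _ _ _ => by positivity
        _ ≤ p / 8 * 2 := by
            rw [← mul_sum]
            gcongr
            exact sum_geometric_two_le _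
    have h5 : (4 * (univ.filter fun a => sh a w ∈ W).card : ℝ) ≤ p := by linarith
    exact_mod_cast h5
  · intro w hw
    obtain ⟨c, hc, h⟩ := hC _ hw
    refine ⟨c, hc, fun a => ?_⟩
    rw [hZsh']
    exact h a

end Pool.Agent.MP_2d33ec_an

end MrgPart0

-- ======== part 1: formerly Pool.Agent.MP_2d33ec_an.Connect
section MrgPart1

/-!
A continuous function on the subshift that takes equal values at the ends of every
one-coordinate segment is constant.
-/

namespace Pool.Agent.MP_2d33ec_an

open Finset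

/-- `F` does not distinguish the ends of one-coordinate segments in the subshift. -/
def SegConst (F : (ℤ → ℝ) → ℝ) : Prop :=
  ∀ (r : ℕ) (x : ℤ → ℝ) (j : ℤ) (u v : ℝ), (∀ n, (r : ℤ) < |n| → x n = 0) → |j| ≤ r → u ≤ v →
    (∀ t, u ≤ t → t ≤ v → Function.update x j t ∈ XX) →
    F (Function.update x j u) = F (Function.update x j v)

theorem move {F : (ℤ → ℝ) → ℝ} (hF : SegConst F) (r M : ℕ) (x g : ℤ → ℝ) (hx : x ∈ XX)
    (hsupp : ∀ n, (r : ℤ) < |n| → x n = 0) (hg0 : ∀ n, 0 ≤ g n) (hgx : ∀ n, g n ≤ x n)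
    (hlow : ∀ m < M, ∀ i n v, g n ≤ v → v ≤ x n → inU m i v → inU m i (x n))
    (hgrid : ∀ m, M ≤ m → ∀ i n, ¬ inU m i (g n))
    (hQ : ∀ m, M ≤ m → 2 * r + 1 ≤ kk m ∨ ∀ i n, ¬ inU m i (x n)) :
    g ∈ XX ∧ F x = F g := by
  classical
  have hmem : ∀ (y : ℤ → ℝ) (j : ℤ), (∀ n, g n ≤ y n ∧ y n ≤ x n) →
      (∀ n, n ≠ j → y n = x n ∨ y n = g n) → y ∈ XX := by
    intro y j h1 h2
    refine ⟨fun n => ⟨(hg0 n).trans (h1 n).1, (h1 n).2.trans (hx.1 n).2⟩, fun m s => ?_⟩
    rcases lt_or_ge m M with hm | hm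
    · exact (cnt_mono fun i _ h => hlow m hm i _ _ (h1 _).1 (h1 _).2 h).trans (hx.2 m s)
    · rcases hQ m hm with h | h
      · refine (cnt_le_card (Icc (-(r : ℤ)) r) fun i n hn => ?_).trans ?_
        · by_contra hcon
          have h3 : (r : ℤ) < |n| := by
            rw [mem_Icc, ← abs_le] at hcon
            exact not_le.1 hcon
          have h4 : y n = 0 :=
            le_antisymm ((h1 n).2.trans (hsupp n h3).le) ((hg0 n).trans (h1 n).1)
          rw [h4] at hn
          exact not_inU_zero m i hn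
        · rw [Int.card_Icc]
          omega
      · refine (cnt_le_card {j} fun i n hn => ?_).trans ?_
        · by_contra hcon
          rcases h2 n (by simpa using hcon) with h3 | h3
          · rw [h3] at hn; exact h i n hn
          · rw [h3] at hn; exact hgrid m hm i n hn
        · have := lt_kk m
          rw [card_singleton]
          omega
  refine ⟨hmem g 0 (fun n => ⟨le_rfl, hgx n⟩) fun n _ => Or.inr rfl, ?_⟩
  have key : ∀ A : Finset ℤ, A ⊆ Icc (-(r : ℤ)) r →
      F x = F fun n => if n ∈ A then g n else x n := by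
    intro A
    induction A using Finset.induction_on with
    | empty => intro _; simp
    | insert j A hj ih =>
      intro hA
      rw [ih ((subset_insert _ _).trans hA)]
      have hjr : |j| ≤ r := by
        have := hA (mem_insert_self _ _)
        rwa [mem_Icc, ← abs_le] at this
      have h1 := hF r (fun n => if n ∈ A then g n else x n) j (g j) (x j) (by
        intro n hn
        have : n ∉ A := by
          intro h
          have := hA (mem_insert_of_mem h)
          rw [mem_Icc, ← abs_le] at this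
          omega
        rw [if_neg this, hsupp n hn]) hjr (hgx j) (by
        intro t ht1 ht2
        refine hmem _ j (fun n => ?_) fun n hn => ?_
        · by_cases hn : n = j
          · subst hn; simp [ht1, ht2]
          · rw [Function.update_of_ne hn]
            split_ifs
            · exact ⟨le_rfl, hgx n⟩
            · exact ⟨hgx n, le_rfl⟩
        · rw [Function.update_of_ne hn]
          split_ifs
          · exact Or.inr rfl
          · exact Or.inl rfl)
      have e1 : Function.update (fun n => if n ∈ A then g n else x n) j (x j) =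
          fun n => if n ∈ A then g n else x n := by
        ext n
        by_cases hn : n = j
        · subst hn; simp [hj]
        · rw [Function.update_of_ne hn]
      have e2 : Function.update (fun n => if n ∈ A then g n else x n) j (g j) =
          fun n => if n ∈ insert j A then g n else x n := by
        ext n
        by_cases hn : n = j
        · subst hn; simp
        · rw [Function.update_of_ne hn]; simp [hn]
      rw [e1, e2] at h1
      exact h1.symm
  rw [key _ Subset.rfl]
  congr 1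
  ext n
  split_ifs with hn
  · rfl
  · have h3 : (r : ℤ) < |n| := by
      rw [mem_Icc, ← abs_le] at hn
      exact not_le.1 hn
    exact le_antisymm ((hsupp n h3).le.trans (hg0 n)) (hgx n)

theorem descend {F : (ℤ → ℝ) → ℝ} (hF : SegConst F) (r : ℕ) : ∀ (M : ℕ) (x : ℤ → ℝ), x ∈ XX →
    (∀ n, (r : ℤ) < |n| → x n = 0) →
    (∀ m, M ≤ m → 2 * r + 1 ≤ kk m ∨ ∀ i n, ¬ inU m i (x n)) → F x = F 0 := by
  intro M
  induction M with
  | zero =>
    intro x hx hsupp hQ
    exact (move hF r 0 x 0 hx hsupp (fun _ => le_rfl) (fun n => (hx.1 n).1)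
      (fun m hm => absurd hm (Nat.not_lt_zero m)) (fun m _ i _ => not_inU_zero m i) hQ).2
  | succ M ih =>
    intro x hx hsupp hQ
    have hb : (0 : ℝ) < bb (M + 1) := by exact_mod_cast bb_pos _
    let g : ℤ → ℝ := fun n => (⌊x n * bb (M + 1)⌋₊ : ℝ) / bb (M + 1)
    have hgrid : ∀ m, M ≤ m → ∀ i n, ¬ inU m i (g n) := by
      intro m hm i n
      obtain ⟨q, hq⟩ := bb_dvd (Nat.succ_le_succ hm)
      refine not_inU_of_grid (n := ⌊x n * bb (M + 1)⌋₊ * q) ?_
      simp only [g, Nat.succ_eq_add_one] at hq ⊢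
      rw [hq]
      push_cast
      field_simp
    have hgx : ∀ n, g n ≤ x n := fun n => by
      simp only [g]
      rw [div_le_iff₀ hb]
      exact Nat.floor_le (mul_nonneg (hx.1 n).1 hb.le)
    obtain ⟨h1, h2⟩ := move hF r (M + 1) x g hx hsupp (fun n => by positivity) hgx (by
      rintro m hm i n v hv1 hv2 ⟨j, hj1, hj2⟩
      have hb' : (0 : ℝ) < bb (m + 1) := by exact_mod_cast bb_pos _
      refine ⟨j, hj1.trans_le (by gcongr), ?_⟩
      by_contra hcon
      push Not at hcon
      obtain ⟨q, hq⟩ := bb_dvd (show m + 1 ≤ M + 1 from hm)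
      have hq' : (bb (M + 1) : ℝ) = bb (m + 1) * q := by exact_mod_cast hq
      have hq0 : (0 : ℝ) < q := by
        by_contra h
        have : (q : ℝ) = 0 := le_antisymm (not_lt.1 h) (Nat.cast_nonneg q)
        rw [this, mul_zero] at hq'
        linarith
      have h3 : (j * LL m + i + 1) * q ≤ ⌊x n * bb (M + 1)⌋₊ := by
        refine Nat.le_floor ?_
        rw [hq', ← mul_assoc]
        push_cast at hcon ⊢
        gcongr
      have h4 : (((j * LL m + i : ℕ) : ℝ) + 1) * q ≤ ⌊x n * bb (M + 1)⌋₊ := by exact_mod_cast h3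
      simp only [g] at hv1
      rw [div_le_iff₀ hb] at hv1
      have h5 := h4.trans hv1
      rw [hq', ← mul_assoc] at h5
      have h6 := le_of_mul_le_mul_right h5 hq0
      linarith) (fun m hm => hgrid m (by omega)) hQ
    rw [h2]
    refine ih g h1 (fun n hn => ?_) fun m hm => Or.inr (hgrid m hm)
    simp [g, hsupp n hn]

theorem const_of_segConst {F : (ℤ → ℝ) → ℝ} (hF : SegConst F) (hc : ContinuousOn F XX)
    {x : ℤ → ℝ} (hx : x ∈ XX) : F x = F 0 := by
  let tr : ℕ → ℤ → ℝ := fun r n => if |n| ≤ r then x n else 0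
  have h1 : ∀ r, tr r ∈ XX := by
    intro r
    refine ⟨fun n => ?_, fun m s => le_trans (cnt_mono fun i _ h => ?_) (hx.2 m s)⟩
    · simp only [tr]
      split_ifs
      · exact hx.1 n
      · simp
    · simp only [tr] at h
      split_ifs at h
      · exact h
      · exact absurd h (not_inU_zero m i)
  have h2 : ∀ r, F (tr r) = F 0 := fun r =>
    descend hF r (2 * r) (tr r) (h1 r) (fun n hn => if_neg (not_le.2 hn))
      fun m hm => Or.inl (by have := lt_kk m; omega)
  have h3 : Filter.Tendsto tr Filter.atTop (nhdsWithin x XX) := by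
    refine tendsto_nhdsWithin_iff.2 ⟨tendsto_pi_nhds.2 fun n => ?_, Filter.Eventually.of_forall h1⟩
    refine tendsto_const_nhds.congr' ?_
    filter_upwards [Filter.eventually_ge_atTop n.natAbs] with r hr
    simp only [tr]
    rw [if_pos]
    rw [Int.abs_eq_natAbs]
    omega
  have h4 := (hc x hx).tendsto.comp h3
  have h5 : F ∘ tr = fun _ => F 0 := funext h2
  rw [h5] at h4
  exact tendsto_nhds_unique h4 tendsto_const_nhds

end Pool.Agent.MP_2d33ec_an

end MrgPart1

-- ======== part 2: formerly Pool.Agent.MP_2d33ec_an.Entropy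
section MrgPart2

/-!
Every nontrivial factor of the subshift has infinite topological entropy.
-/

namespace Pool.Agent.MP_2d33ec_an

open Finset

theorem numeric_step {p : ℕ} (hp : 256 ≤ p) {c K q : ℝ} (hK : 0 ≤ K) (hc : 0 ≤ c)
    (hq : q = Real.exp (-(512 * (5 + K))))
    (h : 1 ≤ c * 2 ^ p * (Real.exp 2 ^ (2 * p) * q ^ (p / 256))) : Real.exp (K * p) ≤ c := by
  have h1 : (2 : ℝ) ^ p ≤ Real.exp p := by
    have : (2 : ℝ) ≤ Real.exp 1 := by
      have := Real.add_one_le_exp 1
      linarith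
    calc (2 : ℝ) ^ p ≤ Real.exp 1 ^ p := by gcongr
      _ = Real.exp p := by rw [← Real.exp_nat_mul, mul_one]
  have h2 : (p : ℝ) ≤ 512 * (p / 256 : ℕ) := by
    have : p ≤ 512 * (p / 256) := by omega
    exact_mod_cast this
  have h3 : q ^ (p / 256) ≤ Real.exp (-((5 + K) * p)) := by
    rw [hq, ← Real.exp_nat_mul]
    refine Real.exp_le_exp.2 ?_
    nlinarith
  have h4 : Real.exp 2 ^ (2 * p) = Real.exp (4 * p) := by
    rw [← Real.exp_nat_mul]
    congr 1
    push_cast
    ring
  have hq0 : 0 ≤ q := by rw [hq]; positivity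
  have h5 : 1 ≤ c * Real.exp (-(K * p)) := by
    calc 1 ≤ c * 2 ^ p * (Real.exp 2 ^ (2 * p) * q ^ (p / 256)) := h
      _ ≤ c * Real.exp p * (Real.exp (4 * p) * Real.exp (-((5 + K) * p))) := by
          rw [h4]; gcongr
      _ = c * Real.exp (-(K * p)) := by
          rw [mul_assoc, ← Real.exp_add, ← Real.exp_add]
          congr 2
          ring
  rwa [Real.exp_neg, ← div_eq_mul_inv, one_le_div (Real.exp_pos _)] at h5

theorem entropy_top {Y : Type*} [MetricSpace Y] (S : Y → Y) (π : XX → Y) (hπ : Continuous π)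
    (hsurj : Function.Surjective π) (hsc : Function.Semiconj π TT S) [Nontrivial Y] :
    Dynamics.coverEntropy S Set.univ = ⊤ := by
  classical
  let y0 : Y := π ⟨0, zero_mem_XX⟩
  let F : (ℤ → ℝ) → ℝ := fun z => if h : z ∈ XX then dist (π ⟨z, h⟩) y0 else 0
  have hFx : ∀ z : XX, F z.1 = dist (π z) y0 := fun z => by simp [F, z.2]
  have hFc' : Continuous fun z : XX => F z.1 := by
    simp only [hFx]
    fun_prop
  have hFc : ContinuousOn F XX := continuousOn_iff_continuous_domRestrict.2 hFc'
  have hns : ¬ SegConst F := by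
    intro hs
    obtain ⟨y, hy⟩ := exists_ne y0
    obtain ⟨z, rfl⟩ := hsurj y
    have h1 := const_of_segConst hs hFc z.2
    have h2 : F 0 = 0 := by
      have := hFx ⟨0, zero_mem_XX⟩
      simpa [y0] using this
    rw [hFx, h2, dist_eq_zero] at h1
    exact hy h1
  unfold SegConst at hns
  push Not at hns
  obtain ⟨r0, x, j, u, v, hsupp0, hj0, huv, hseg, hne⟩ := hns
  set Δ := |F (Function.update x j u) - F (Function.update x j v)| / 2 with hΔdef
  have hΔ : 0 < Δ := half_pos (abs_pos.2 (sub_ne_zero.2 hne))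
  obtain ⟨r1, δ, hδ, hwin0⟩ := exists_window (fun b : XX => {z : XX | |F z.1 - F b.1| < Δ / 4})
    (fun b => isOpen_lt (hFc'.sub continuous_const).abs continuous_const)
    (fun z => ⟨z, by simpa using hΔ⟩)
  set r := max r0 r1 with hr
  have hr0 : (r0 : ℤ) ≤ r := by exact_mod_cast le_max_left r0 r1
  have hr1 : (r1 : ℤ) ≤ r := by exact_mod_cast le_max_right r0 r1
  have hwin : ∀ z ∈ XX, ∀ z' ∈ XX, (∀ n : ℤ, |n| ≤ r → z n = z' n) → |F z - F z'| ≤ Δ / 2 := by
    intro z hz z' hz' h
    obtain ⟨b, hb⟩ := hwin0 ⟨z, hz⟩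
    have h1 := hb ⟨z, hz⟩ fun n _ => by simpa using hδ.le
    have h2 := hb ⟨z', hz'⟩ fun n hn => by simpa [h n (hn.trans hr1)] using hδ.le
    simp only [Set.mem_ofPred_eq, abs_lt] at h1 h2
    rw [abs_le]
    constructor <;> linarith [h1.1, h1.2, h2.1, h2.2]
  have hrM : 2 * r + 1 ≤ LL (2 * r) := lt_LL _
  set R := 2 * LL (2 * r) with hRdef
  have hR : 0 < R := by omega
  have key : ∀ h : ℝ, 0 ≤ h → (h : EReal) ≤ Dynamics.coverEntropy S Set.univ := by
    intro h hh
    set q := Real.exp (-(512 * (5 + h * R))) with hq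
    have hq0 : 0 < q := Real.exp_pos _
    set ε := q * Δ / 2048 with hε
    have hε0 : 0 < ε := by positivity
    refine le_trans ?_ (Dynamics.coverEntropyEntourage_le_coverEntropy S Set.univ
      (Metric.dist_mem_uniformity hε0))
    refine Frequently.le_expGrowthSup (Filter.frequently_atTop.2 fun N => ?_)
    obtain ⟨p, hpN, hp⟩ := Nat.exists_infinite_primes (max N 256)
    have hp256 : 256 ≤ p := le_of_max_le_right hpN
    have := Fact.mk hp
    refine ⟨p * R, (le_of_max_le_left hpN).trans (Nat.le_mul_of_pos_right _ hR), ?_⟩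
    have e : EReal.exp ((h : EReal) * (p * R : ℕ)) = ENNReal.ofReal (Real.exp (h * R * p)) := by
      rw [← EReal.exp_coe]
      congr 1
      rw [show h * R * p = h * ((p * R : ℕ) : ℝ) by push_cast; ring, EReal.coe_mul]
      rfl
    rw [e]
    simp only [Dynamics.coverMincard, ENat.toENNReal_iInf]
    refine le_iInf₂ fun s hs => ?_
    let C : Finset (ZMod p → ℝ) := s.image fun c a => dist (S^[a.val * R] c) y0
    have h1 := family_estimate (p := p) (by omega) hrM
      (fun n hn => hsupp0 n (hr0.trans_lt hn)) (hj0.trans hr0) huv hseg hFc hΔ hε0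
      (by rw [hΔdef]; linarith) hwin C (by
        intro z hz
        obtain ⟨c, hc, hzc⟩ := hs (Set.mem_univ (π ⟨z, hz⟩))
        refine ⟨_, mem_image_of_mem _ (mem_coe.1 hc), fun a => ?_⟩
        have h2 := Dynamics.mem_dynEntourage.1 hzc (a.val * R)
          (Nat.mul_lt_mul_of_pos_right (ZMod.val_lt a) hR)
        have h3 : shZ (a.val * (2 * LL (2 * r) : ℕ)) z = (TT^[a.val * R] ⟨z, hz⟩).1 := by
          rw [TT_iterate]
          push_cast [hRdef]
          rfl
        rw [h3, hFx, hsc.iterate_right]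
        exact (abs_dist_sub_le _ _ _).trans (le_of_lt h2))
    have h2 : 2048 * ε / Δ = q := by
      rw [hε]
      field_simp
    rw [h2] at h1
    have h3 := numeric_step hp256 (by positivity) (Nat.cast_nonneg _) hq h1
    have h4 : (C.card : ℝ) ≤ s.card := by exact_mod_cast card_image_le
    calc ENNReal.ofReal (Real.exp (h * R * p)) ≤ ENNReal.ofReal (s.card : ℝ) :=
          ENNReal.ofReal_le_ofReal (h3.trans h4)
      _ = _ := by simp
  refine (EReal.eq_top_iff_forall_lt _).2 fun y => lt_of_lt_of_le ?_ (key (|y| + 1) (by positivity))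
  exact_mod_cast (le_abs_self y).trans_lt (lt_add_one _)

end Pool.Agent.MP_2d33ec_an

end MrgPart2

-- marker of a merged file
example : 731051 + 491257 = 731051 + 491257 := rfl
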